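import Pool.Agent.MP_7e7dde_gt.Stmt

/-!
# MP_b00c97_gt: the question Q1 as a first order statement about a model of set theory

All quantifiers range over the model `(M, E)`; `w` is the ordinal `ω` of the model.
-/

set_option autoImplicit false

namespace Pool.Agent.MP_b00c97_gt.Mod

open MP63050e MP7e7dde

universe u

variable {M : Type u} (E : M → M → Prop)

/-- `G` is a group with neutral element `e`, `mul` being the set of the triples `(x, y, x y)`. -/
def IsGrp (G mul e : M) : Prop :=
  (∀ x y, E x G → E y G → ∃ z, E z G ∧ ∀ z', Has E mul [x, y, z'] ↔ z' = z) ∧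
  (∀ x y z s t, E x G → E y G → E z G → Has E mul [x, y, s] → Has E mul [y, z, t] →
    ∃ r, Has E mul [s, z, r] ∧ Has E mul [x, t, r]) ∧
  E e G ∧ (∀ x, E x G → Has E mul [e, x, x] ∧ Has E mul [x, e, x]) ∧
  ∀ x, E x G → ∃ y, E y G ∧ Has E mul [x, y, e] ∧ Has E mul [y, x, e]

/-- The group is abelian. -/
def IsAbel (G mul : M) : Prop :=
  ∀ x y z, E x G → E y G → Has E mul [x, y, z] → Has E mul [y, x, z]

/-- `(G, mul)` with the topology `T` is a topological group: the multiplication and the inversion
are continuous. -/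
def IsTopGrp (G mul e T : M) : Prop :=
  IsGrp E G mul e ∧ IsTop E G T ∧
  (∀ x y z U, E x G → E y G → Has E mul [x, y, z] → E U T → E z U →
    ∃ V W, E V T ∧ E W T ∧ E x V ∧ E y W ∧
      ∀ x' y' z', E x' V → E y' W → Has E mul [x', y', z'] → E z' U) ∧
  ∀ x y U, E x G → E y G → Has E mul [x, y, e] → E U T → E y U →
    ∃ V, E V T ∧ E x V ∧ ∀ x' y', E x' V → E y' G → Has E mul [x', y', e] → E y' U

/-- `U` is a neighbourhood of the neutral element. -/
def IsNbhd (G e T U : M) : Prop := Sub E U G ∧ ∃ O, E O T ∧ E e O ∧ Sub E O U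

/-- `F` is a finite subset of `G`. -/
def IsFinSub (w G F : M) : Prop := Sub E F G ∧ IsFin E w F

/-- `g` belongs to the product set `F U`. -/
def InProd (mul F U g : M) : Prop := ∃ a u, E a F ∧ E u U ∧ Has E mul [a, u, g]

/-- `s` is a function on `n` all of whose values have the property `P`. -/
def IsSeqOf (n : M) (P : M → Prop) (s : M) : Prop :=
  (∃ Y, IsFun E s n Y) ∧ ∀ i y, E i n → Has E s [i, y] → P y

/-- The group `G` is `o`-bounded: for each sequence `(U_n)` of neighbourhoods of the neutral
element there is a sequence `(F_n)` of finite sets such that `G` is the union of the `F_n U_n`. -/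
def IsOBdd (w G mul e T : M) : Prop :=
  ∀ U, IsSeqOf E w (IsNbhd E G e T) U → ∃ F, IsSeqOf E w (IsFinSub E w G) F ∧
    ∀ g, E g G → ∃ n u f, E n w ∧ Has E U [n, u] ∧ Has E F [n, f] ∧ InProd E mul f u g

/-- `s` is the restriction of the function `F` to `n`. -/
def IsRestr (s F n : M) : Prop := ∀ p, E p s ↔ E p F ∧ ∃ a b, E a n ∧ IsPair E p a b

/-- `σ` is a rule for player I in the Open-Finite game: it assigns to each finite sequence
`(F_0, …, F_{n-1})` of finite sets (the earlier moves of player II) a neighbourhood of the neutral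
element. -/
def IsRule (w G e T σ : M) : Prop :=
  ∀ n s, E n w → IsSeqOf E n (IsFinSub E w G) s →
    ∃ U, IsNbhd E G e T U ∧ ∀ U', Has E σ [s, U'] ↔ U' = U

/-- Player I has a winning strategy in the Open-Finite game: a rule `σ` such that for each sequence
`(F_n)` of moves of player II the sets `F_n U_n`, where `U_n = σ(F_0, …, F_{n-1})`, do not
cover `G`. -/
def IWins (w G mul e T : M) : Prop :=
  ∃ σ, IsRule E w G e T σ ∧ ∀ F, IsSeqOf E w (IsFinSub E w G) F →
    ∃ g, E g G ∧ ∀ n s U f, E n w → IsRestr E s F n → Has E σ [s, U] → Has E F [n, f] →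
      ¬ InProd E mul f U g

/-- The topology `T` on `G` is given by an ultrametric. The ultrametric is `2 ^ (- δ(x, y))`, where
`δ` is a function from `G × G` to `ω ∪ {ω}`, with `2 ^ (- ω) = 0`: one has `δ(x, y) = ω` if and only
if `x = y`, `δ` is symmetric, `δ(x, z) ≥ min (δ(x, y), δ(y, z))`, and `U ⊆ G` is open if and only if
for each `x ∈ U` there is `n ∈ ω` such that `U` contains all `y` with `δ(x, y) ≥ n`. -/
def IsUMet (w G T δ : M) : Prop :=
  (∀ x y, E x G → E y G → ∃ k, (E k w ∨ k = w) ∧ ∀ k', Has E δ [x, y, k'] ↔ k' = k) ∧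
  (∀ x y, E x G → E y G → (Has E δ [x, y, w] ↔ x = y)) ∧
  (∀ x y k, E x G → E y G → Has E δ [x, y, k] → Has E δ [y, x, k]) ∧
  (∀ x y z i j k n, E x G → E y G → E z G → Has E δ [x, y, i] → Has E δ [y, z, j] →
    Has E δ [x, z, k] → E n w → LeN E n i → LeN E n j → LeN E n k) ∧
  ∀ U, E U T ↔ Sub E U G ∧ ∀ x, E x U → ∃ n, E n w ∧ ∀ y k, E y G → Has E δ [x, y, k] →
    LeN E n k → E y U

/-- Q1 has a positive answer in the model, in the strong form: there is an abelian topological
group whose topology is given by an ultrametric, which is `o`-bounded, and on which player I has a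
winning strategy. -/
def Q1Yes : Prop :=
  ∃ w G mul e T δ, IsOmega E w ∧ IsTopGrp E G mul e T ∧ IsAbel E G mul ∧ IsUMet E w G T δ ∧
    IsOBdd E w G mul e T ∧ IWins E w G mul e T

/-- Q1 has a negative answer in the model, for all topological groups: player I has no winning
strategy on an `o`-bounded topological group. -/
def Q1No : Prop :=
  ∀ w G mul e T, IsOmega E w → IsTopGrp E G mul e T → IsOBdd E w G mul e T →
    ¬ IWins E w G mul e T

end Pool.Agent.MP_b00c97_gt.Mod
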