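import Pool.Agent.MP_8322c3_lc.Collapse
import Pool.Agent.Lib.helper63.SM2

set_option autoImplicit false

/-! A model of ZFC + CH, in the vocabulary of `MP_63050e_lc/Statement.lean`. -/

namespace Pool.Agent.MPb00c97.CHModel

open SetModel MP63050e FirstOrder FirstOrder.Language
open MP8322 (U Fml nth Sat IsTransModelZFC WL)

/-- the index of a term -/
def ix {n : ℕ} : memLang.Term (ℕ ⊕ Fin n) → ℕ
  | .var (.inl i) => n + i
  | .var (.inr j) => n - 1 - j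
  | .func f _ => f.elim

/-- translation of formulas -/
def tr : {n : ℕ} → memLang.BoundedFormula ℕ n → Fml
  | _, .falsum => .neg (.eq 0 0)
  | _, .equal t s => .eq (ix t) (ix s)
  | _, .rel (l := l) R ts =>
    match l, R, ts with
    | _, .mem, ts => .mem (ix (ts 0)) (ix (ts 1))
  | _, .imp a b => .neg (.and (tr a) (.neg (tr b)))
  | _, .all a => .neg (.ex (.neg (tr a)))

section
variable {W : Set U}

/-- the assignment list -/
def al {n : ℕ} (xs : Fin n → {x // x ∈ W}) (l : List U) : List U :=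
  (List.ofFn fun j => (xs j).1).reverse ++ l

theorem al_zero (xs : Fin 0 → {x // x ∈ W}) (l : List U) : al xs l = l := rfl

theorem al_snoc {n : ℕ} (xs : Fin n → {x // x ∈ W}) (x : {x // x ∈ W}) (l : List U) :
    al (Fin.snoc (α := fun _ => {x // x ∈ W}) xs x) l = x.1 :: al xs l := by
  unfold al
  rw [List.ofFn_succ']
  simp

theorem nth_al_right {n : ℕ} (xs : Fin n → {x // x ∈ W}) (l : List U) (i : ℕ) :
    nth (al xs l) (n + i) = nth l i := by
  unfold nth al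
  rw [List.getD_append_right _ _ _ _ (by simp)]
  simp

theorem nth_al_left {n : ℕ} (xs : Fin n → {x // x ∈ W}) (l : List U) (j : Fin n) :
    nth (al xs l) (n - 1 - j) = (xs j).1 := by
  have hj := j.2
  unfold nth al
  rw [List.getD_append _ _ _ _ (by simp; omega), List.getD_eq_getElem _ _ (by simp; omega),
    List.getElem_reverse, List.getElem_ofFn]
  congr 2
  ext
  simp
  omega

theorem term_val {n : ℕ} (v : ℕ → {x // x ∈ W}) (xs : Fin n → {x // x ∈ W}) (l : List U)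
    (hv : ∀ i, (v i).1 = nth l i) (t : memLang.Term (ℕ ⊕ Fin n)) :
    letI := memStructure (fun a b : {x // x ∈ W} => a.1 ∈ b.1)
    (t.realize (Sum.elim v xs)).1 = nth (al xs l) (ix t) := by
  match t with
  | .var (.inl i) => exact (hv i).trans (nth_al_right xs l i).symm
  | .var (.inr j) => exact (nth_al_left xs l j).symm
  | .func f _ => exact f.elim

theorem realize_iff (v : ℕ → {x // x ∈ W}) (l : List U) (hv : ∀ i, (v i).1 = nth l i)
    {n : ℕ} (φ : memLang.BoundedFormula ℕ n) (xs : Fin n → {x // x ∈ W}) :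
    letI := memStructure (fun a b : {x // x ∈ W} => a.1 ∈ b.1)
    φ.Realize v xs ↔ Sat W (tr φ) (al xs l) := by
  induction φ with
  | falsum => simp [tr, Sat, BoundedFormula.Realize]
  | equal t s =>
    simp only [tr, Sat, BoundedFormula.Realize]
    rw [← term_val v xs l hv t, ← term_val v xs l hv s]
    exact Subtype.ext_iff
  | rel R ts =>
    cases R
    simp only [tr, Sat, BoundedFormula.Realize]
    rw [← term_val v xs l hv (ts 0), ← term_val v xs l hv (ts 1)]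
    rfl
  | imp a b iha ihb =>
    simp only [tr, Sat, BoundedFormula.Realize, iha, ihb]
    tauto
  | all a ih =>
    simp only [tr, Sat, BoundedFormula.Realize]
    constructor
    · rintro h ⟨x, hx, hn⟩
      apply hn
      have := (ih (Fin.snoc xs ⟨x, hx⟩)).1 (h ⟨x, hx⟩)
      rwa [al_snoc] at this
    · intro h x
      rw [ih, al_snoc]
      by_contra hn
      exact h ⟨x.1, x.2, hn⟩

/-- definable relations are given by formulas -/
theorem def_sat (he : (∅ : U) ∈ W) {k : ℕ} {D : Set (Fin k → {x // x ∈ W})}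
    (hD : letI := memStructure (fun a b : {x // x ∈ W} => a.1 ∈ b.1)
      (Set.univ : Set {x // x ∈ W}).Definable memLang D) :
    ∃ (ψ : Fml) (ps : List U), (∀ p ∈ ps, p ∈ W) ∧ ∀ x, x ∈ D ↔ Sat W ψ (al x ps) := by
  let _ := memStructure (fun a b : {x // x ∈ W} => a.1 ∈ b.1)
  rw [Set.definable_iff_exists_formula_sum] at hD
  obtain ⟨φ, rfl⟩ := hD
  classical
  obtain ⟨L, hL⟩ : ∃ L : List ((Set.univ : Set {x // x ∈ W}) ⊕ Fin k),
      ∀ a ∈ φ.freeVarFinset, a ∈ L := ⟨φ.freeVarFinset.toList, fun a ha => by simpa using ha⟩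
  obtain ⟨ps, hps⟩ : ∃ ps : List U,
      ps = L.map (Sum.elim (fun a => (a.1.1 : U)) (fun _ => (∅ : U))) := ⟨_, rfl⟩
  choose idx hidx hidx' using fun s : φ.freeVarFinset => List.mem_iff_getElem.1 (hL s.1 s.2)
  obtain ⟨g, hg⟩ : ∃ g : φ.freeVarFinset → ℕ, g = fun s =>
      Sum.elim (fun _ => k + idx s) (fun j : Fin k => k - 1 - (j : ℕ)) s.1 := ⟨_, rfl⟩
  have hpsW : ∀ p ∈ ps, p ∈ W := by
    intro p hp
    rw [hps, List.mem_map] at hp
    obtain ⟨a, _, rfl⟩ := hp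
    rcases a with a | a
    · exact a.1.2
    · exact he
  refine ⟨tr (φ.restrictFreeVar g), ps, hpsW, fun x => ?_⟩
  have hlW : ∀ i, nth (al x ps) i ∈ W := by
    intro i
    by_cases hi : i < (al x ps).length
    · have h1 : nth (al x ps) i = (al x ps)[i] := List.getD_eq_getElem _ _ hi
      rw [h1]
      have h2 := List.getElem_mem hi
      unfold al at h2
      rw [List.mem_append, List.mem_reverse, List.mem_ofFn] at h2
      rcases h2 with ⟨j, hj⟩ | h2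
      · change (al x ps)[i] ∈ W
        unfold al
        rw [← hj]
        exact (x j).2
      · exact hpsW _ h2
    · have h1 : nth (al x ps) i = ∅ := List.getD_eq_default _ _ (not_lt.1 hi)
      rw [h1]
      exact he
  have h1 := realize_iff (fun i => ⟨nth (al x ps) i, hlW i⟩) (al x ps) (fun i => rfl)
    (φ.restrictFreeVar g) (default : Fin 0 → {x // x ∈ W})
  rw [al_zero] at h1
  rw [← h1]
  change φ.Realize _ ↔ _
  unfold Formula.Realize
  refine (BoundedFormula.realize_restrictFreeVar (L := memLang) (φ := φ) (f := g)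
    (Sum.elim (fun a => (a : {x // x ∈ W})) x) ?_).symm
  rintro ⟨a, ha⟩
  rcases a with a | a
  · apply Subtype.ext
    have h2 := hidx ⟨Sum.inl a, ha⟩
    have h2' := hidx' ⟨Sum.inl a, ha⟩
    simp only [hg, Sum.elim_inl]
    rw [nth_al_right]
    have h3 : nth ps (idx ⟨Sum.inl a, ha⟩) = ps[idx ⟨Sum.inl a, ha⟩]'(by
      rw [hps, List.length_map]; exact h2) := List.getD_eq_getElem _ _ _
    rw [h3]
    simp only [hps, List.getElem_map]
    rw [h2']
    rfl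
  · apply Subtype.ext
    simp only [hg, Sum.elim_inr]
    exact nth_al_left x ps a

/-- a transitive model is a model -/
theorem isModel (hW : IsTransModelZFC W) (he : (∅ : U) ∈ W) :
    IsModelZFC (fun a b : {x // x ∈ W} => a.1 ∈ b.1) where
  extensionality x y h := Subtype.ext
    (hW.extensionality x.1 x.2 y.1 y.2 fun z hz => h ⟨z, hz⟩)
  foundation := by
    rintro x ⟨y, hy⟩
    obtain ⟨z, hz, hzx, hn⟩ := hW.foundation x.1 x.2 ⟨y.1, y.2, hy⟩
    exact ⟨⟨z, hz⟩, hzx, fun w h1 h2 => hn w.1 w.2 ⟨h2, h1⟩⟩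
  pairing a b := by
    obtain ⟨z, hz, h⟩ := hW.pairing a.1 a.2 b.1 b.2
    refine ⟨⟨z, hz⟩, fun u => (h u.1 u.2).trans ?_⟩
    rw [Subtype.ext_iff, Subtype.ext_iff]
  union x := by
    obtain ⟨z, hz, h⟩ := hW.union x.1 x.2
    refine ⟨⟨z, hz⟩, fun u => (h u.1 u.2).trans ?_⟩
    constructor
    · rintro ⟨y, hy, h1, h2⟩
      exact ⟨⟨y, hy⟩, h1, h2⟩
    · rintro ⟨y, h1, h2⟩
      exact ⟨y.1, y.2, h1, h2⟩
  powerset x := by
    obtain ⟨z, hz, h⟩ := hW.powerset x.1 x.2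
    refine ⟨⟨z, hz⟩, fun u => (h u.1 u.2).trans ?_⟩
    exact ⟨fun h v => h v.1 v.2, fun h v hv => h ⟨v, hv⟩⟩
  infinity := by
    obtain ⟨z, hz, ⟨e, heW, hez, hee⟩, h⟩ := hW.infinity
    refine ⟨⟨z, hz⟩, ⟨⟨e, heW⟩, fun u => hee u.1 u.2, hez⟩, fun x hx => ?_⟩
    obtain ⟨v, hv, hvz, h2⟩ := h x.1 x.2 hx
    refine ⟨⟨v, hv⟩, hvz, fun t => (h2 t.1 t.2).trans ?_⟩
    rw [Subtype.ext_iff]
  separation D hD x := by
    obtain ⟨ψ, ps, hps, h⟩ := def_sat he hD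
    obtain ⟨b, hb, h2⟩ := hW.separation ψ ps hps x.1 x.2
    refine ⟨⟨b, hb⟩, fun z => (h2 z.1 z.2).trans (and_congr_right fun _ => ?_)⟩
    have h3 := h (fun _ => z)
    refine Iff.trans ?_ h3.symm
    rfl
  replacement R hR x hx := by
    obtain ⟨ψ, ps, hps, h⟩ := def_sat he hR
    have h3 : ∀ y z : {x // x ∈ W}, R y z ↔ Sat W ψ (z.1 :: y.1 :: ps) := fun y z => h ![y, z]
    obtain ⟨b, hb, h2⟩ := hW.replacement ψ ps hps x.1 x.2 (by
      intro u hu hux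
      obtain ⟨v, hv, hv'⟩ := hx ⟨u, hu⟩ hux
      refine ⟨v.1, v.2, fun v' hv'W => ?_⟩
      rw [← h3 ⟨u, hu⟩ ⟨v', hv'W⟩]
      constructor
      · intro h4
        exact congrArg Subtype.val (hv' _ h4)
      · rintro rfl
        exact hv)
    refine ⟨⟨b, hb⟩, fun z => (h2 z.1 z.2).trans ?_⟩
    constructor
    · rintro ⟨u, hu, h4, h5⟩
      exact ⟨⟨u, hu⟩, h4, (h3 _ _).2 h5⟩
    · rintro ⟨u, h4, h5⟩
      exact ⟨u.1, u.2, h4, (h3 _ _).1 h5⟩
  choice a h1 h2 := by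
    obtain ⟨c, hc, h⟩ := hW.choice a.1 a.2 (fun x hx hxa => by
        obtain ⟨z, hz⟩ := h1 ⟨x, hx⟩ hxa
        exact ⟨z.1, z.2, hz⟩)
      (fun x hx y hy hxa hya hne z hz hzz => h2 ⟨x, hx⟩ ⟨y, hy⟩ hxa hya
        (fun h => hne (congrArg Subtype.val h)) ⟨⟨z, hz⟩, hzz⟩)
    refine ⟨⟨c, hc⟩, fun y hy => ?_⟩
    obtain ⟨z, hz, h3⟩ := h y.1 y.2 hy
    refine ⟨⟨z, hz⟩, ?_, ?_⟩
    · have := (h3 z hz).2 rfl
      exact ⟨this.2, this.1⟩
    · rintro z' ⟨h4, h5⟩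
      exact Subtype.ext ((h3 z'.1 z'.2).1 ⟨h5, h4⟩)

/-- the membership relation of `W` -/
abbrev EW (W : Set U) : {x // x ∈ W} → {x // x ∈ W} → Prop := fun a b => a.1 ∈ b.1

open MP8322 (Nice num mem_omega_iff)

theorem isUPair_iff (hN : Nice W) {p a b : {x // x ∈ W}} :
    IsUPair (EW W) p a b ↔ p.1 = {a.1, b.1} := by
  constructor
  · intro h
    ext z
    rw [ZFSet.mem_pair]
    constructor
    · intro hz
      rcases (h ⟨z, hN.trans _ p.2 _ hz⟩).1 hz with h1 | h1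
      · exact Or.inl (congrArg Subtype.val h1)
      · exact Or.inr (congrArg Subtype.val h1)
    · rintro (rfl | rfl)
      · exact (h a).2 (Or.inl rfl)
      · exact (h b).2 (Or.inr rfl)
  · intro h z
    change z.1 ∈ p.1 ↔ _
    rw [h, ZFSet.mem_pair, Subtype.ext_iff, Subtype.ext_iff]

theorem isPair_iff (hN : Nice W) {p a b : {x // x ∈ W}} :
    IsPair (EW W) p a b ↔ p.1 = ZFSet.pair a.1 b.1 := by
  constructor
  · rintro ⟨s, t, hs, ht, hp⟩
    rw [isUPair_iff hN] at hs ht hp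
    rw [hp, hs, ht]
    unfold ZFSet.pair
    simp
  · intro h
    refine ⟨⟨_, hN.upair _ a.2 _ a.2⟩, ⟨_, hN.upair _ a.2 _ b.2⟩, ?_, ?_, ?_⟩
    · rw [isUPair_iff hN]
    · rw [isUPair_iff hN]
    · rw [isUPair_iff hN, h]
      unfold ZFSet.pair
      simp

theorem pair_mem (hN : Nice W) {x y : U} (hx : x ∈ W) (hy : y ∈ W) : ZFSet.pair x y ∈ W := by
  have h1 := hN.upair _ hx _ hx
  have h2 := hN.upair _ hx _ hy
  have h3 := hN.upair _ h1 _ h2
  unfold ZFSet.pair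
  simpa using h3

theorem has2_iff (hN : Nice W) {f a b : {x // x ∈ W}} :
    Has (EW W) f [a, b] ↔ ZFSet.pair a.1 b.1 ∈ f.1 := by
  constructor
  · rintro ⟨t, ⟨s, rfl, ht⟩, htf⟩
    rw [isPair_iff hN] at ht
    rw [← ht]
    exact htf
  · intro h
    exact ⟨⟨_, pair_mem hN a.2 b.2⟩, ⟨b, rfl, (isPair_iff hN).2 rfl⟩, h⟩

theorem isFun_iff (hN : Nice W) {f x y : {x // x ∈ W}} :
    IsFun (EW W) f x y ↔ ZFSet.IsFunc x.1 y.1 f.1 := by
  constructor
  · rintro ⟨h1, h2⟩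
    refine ⟨fun p hp => ?_, fun z hz => ?_⟩
    · obtain ⟨a, b, ha, hb, hpp⟩ := h1 ⟨p, hN.trans _ f.2 _ hp⟩ hp
      rw [isPair_iff hN] at hpp
      have : p = ZFSet.pair a.1 b.1 := hpp
      rw [this, ZFSet.pair_mem_prod]
      exact ⟨ha, hb⟩
    · obtain ⟨b, hb, hu⟩ := h2 ⟨z, hN.trans _ x.2 _ hz⟩ hz
      refine ⟨b.1, (has2_iff hN).1 hb, fun w hw => ?_⟩
      have hwW : w ∈ W := by
        have h3 := (ZFSet.mem_sUnion.2 ⟨_, hw, by
          unfold ZFSet.pair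
          exact ZFSet.mem_pair.2 (Or.inr rfl)⟩ : ({z, w} : U) ∈ ZFSet.sUnion f.1)
        exact hN.trans _ (hN.trans _ (hN.sUnion _ f.2) _ h3) _ (ZFSet.mem_pair.2 (Or.inr rfl))
      exact congrArg Subtype.val (hu ⟨w, hwW⟩ ((has2_iff hN).2 hw))
  · rintro ⟨h1, h2⟩
    refine ⟨fun p hp => ?_, fun a ha => ?_⟩
    · have h3 := h1 hp
      rw [ZFSet.mem_prod] at h3
      obtain ⟨a, ha, b, hb, h4⟩ := h3
      exact ⟨⟨a, hN.trans _ x.2 _ ha⟩, ⟨b, hN.trans _ y.2 _ hb⟩, ha, hb, (isPair_iff hN).2 h4⟩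
    · obtain ⟨b, hb, hu⟩ := h2 a.1 ha
      have hby : b ∈ y.1 := (ZFSet.pair_mem_prod.1 (h1 hb)).2
      refine ⟨⟨b, hN.trans _ y.2 _ hby⟩, (has2_iff hN).2 hb, fun c hc => ?_⟩
      exact Subtype.ext (hu c.1 ((has2_iff hN).1 hc))

theorem injects_iff (hN : Nice W) {x y : {x // x ∈ W}} :
    Injects (EW W) x y ↔ ∃ f ∈ W, MP8322.IsInj x.1 y.1 f := by
  constructor
  · rintro ⟨f, hf, hi⟩
    have hf' := (isFun_iff hN).1 hf
    refine ⟨f.1, f.2, hf', fun a b c hac hbc => ?_⟩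
    have ha := (ZFSet.pair_mem_prod.1 (hf'.1 hac))
    have hb := (ZFSet.pair_mem_prod.1 (hf'.1 hbc))
    have h1 := hi ⟨a, hN.trans _ x.2 _ ha.1⟩ ⟨b, hN.trans _ x.2 _ hb.1⟩
      ⟨c, hN.trans _ y.2 _ ha.2⟩ ha.1 hb.1 ((has2_iff hN).2 hac) ((has2_iff hN).2 hbc)
    exact congrArg Subtype.val h1
  · rintro ⟨f, hf, hff, hi⟩
    refine ⟨⟨f, hf⟩, (isFun_iff hN).2 hff, fun a b c _ _ h1 h2 => ?_⟩
    exact Subtype.ext (hi _ _ _ ((has2_iff hN).1 h1) ((has2_iff hN).1 h2))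

theorem isOrd_of {x : {x // x ∈ W}} (h : x.1.IsOrdinal) : IsOrd (EW W) x := by
  refine ⟨fun y z hy hz => h.isTransitive.mem_trans hz hy, fun y hy z w hz hw => ?_⟩
  exact (h.mem hy).isTransitive.mem_trans hw hz

theorem num_mem (hN : Nice W) (n : ℕ) : num n ∈ W :=
  hN.trans _ hN.omega _ ((mem_omega_iff _).2 ⟨n, rfl⟩)

theorem isOmega (hN : Nice W) (ho : (ZFSet.omega : U).IsOrdinal) :
    IsOmega (EW W) ⟨ZFSet.omega, hN.omega⟩ := by
  have hs : ∀ n, IsSucc (EW W) ⟨num (n + 1), num_mem hN _⟩ ⟨num n, num_mem hN _⟩ := by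
    intro n z
    change z.1 ∈ num (n + 1) ↔ z.1 ∈ num n ∨ z = _
    rw [Subtype.ext_iff, num, ZFSet.mem_insert_iff]
    exact or_comm
  refine ⟨isOrd_of ho, ⟨⟨∅, hN.empty⟩, fun z => ZFSet.notMem_empty _, ZFSet.omega_zero⟩,
    ?_, ?_⟩
  · rintro ⟨x, hxW⟩ hx
    obtain ⟨n, hn⟩ := (mem_omega_iff x).1 hx
    subst hn
    exact ⟨⟨num (n + 1), num_mem hN _⟩, (mem_omega_iff _).2 ⟨_, rfl⟩, hs n⟩
  · rintro ⟨x, hxW⟩ hx
    obtain ⟨n, hn⟩ := (mem_omega_iff x).1 hx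
    subst hn
    rcases n with _ | n
    · exact Or.inl fun z => ZFSet.notMem_empty _
    · exact Or.inr ⟨⟨num n, num_mem hN _⟩, (mem_omega_iff _).2 ⟨_, rfl⟩, hs n⟩

theorem isOmega1 (hN : Nice W) (ho : (ZFSet.omega : U).IsOrdinal) {o : U}
    (h : MP8322.IsOmega1 W o) : IsOmega1 (EW W) ⟨o, h.1⟩ := by
  refine ⟨⟨ZFSet.omega, hN.omega⟩, isOmega hN ho, isOrd_of h.2.1, ?_, ?_⟩
  · intro a ha
    exact (injects_iff hN).2 (h.2.2.2 a.1 ha)
  · intro hi
    exact h.2.2.1 ((injects_iff hN).1 hi)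

end

/-- The continuum hypothesis in `(M, E)`: the power set of `ω` injects into `ω₁`. -/
def CH {M : Type 1} (E : M → M → Prop) : Prop :=
  ∃ w o P, IsOmega E w ∧ IsOmega1 E o ∧ (∀ z, E z P ↔ ∀ t, E t z → E t w) ∧ Injects E P o

theorem exists_CH : ∃ (M : Type 1) (E : M → M → Prop), IsModelZFC E ∧ CH E := by
  obtain ⟨c, M, G, hM, hG, _⟩ := MP8322.exists_collapse
  have hN := MP8322.Ext.nice hM.toEnv hG
  have hZ := isModel (MP8322.Ext.zfc hM.toEnv hG) hN.empty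
  have ho := MP8322.col_omega1 hM hG
  obtain ⟨F, hF, hb⟩ := MP8322.col_F hM hG
  have hord : (ZFSet.omega : U).IsOrdinal := by
    rw [MP8322.omega_eq]
    exact ZFSet.isOrdinal_toZFSet _
  refine ⟨_, _, hZ, ⟨ZFSet.omega, hN.omega⟩, ⟨_, ho.1⟩, ⟨_, hN.power _ hN.omega⟩,
    isOmega hN hord, isOmega1 hN hord ho, ?_, ?_⟩
  · intro z
    have hz : z.1 ∈ ZFSet.sep (fun y => y ∈ MP8322.Ext c M G) (ZFSet.powerset ZFSet.omega) ↔
        (∀ t : {x // x ∈ MP8322.Ext c M G}, t.1 ∈ z.1 → t.1 ∈ ZFSet.omega) := by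
      rw [ZFSet.mem_sep, ZFSet.mem_powerset]
      constructor
      · rintro ⟨h1, _⟩ t ht
        exact h1 ht
      · intro h
        exact ⟨fun t ht => h ⟨t, hN.trans _ z.2 _ ht⟩ ht, z.2⟩
    exact hz
  · obtain ⟨f, hf1, hf2⟩ := SM.exists_fun hZ
      (R := fun y a => Has (EW (MP8322.Ext c M G)) ⟨F, hF⟩ [a, y])
      (by
        unfold SM.Dfn2
        apply SM.Dfn.comp3 SM.dfn_has2
        · exact SM.CMap.const _
        · apply SM.CMap.snd
          exact SM.CMap.id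
        · apply SM.CMap.fst
          exact SM.CMap.id)
      ⟨_, hN.power _ hN.omega⟩ ⟨_, ho.1⟩ (by
        intro y hy
        obtain ⟨a, ha⟩ := hb.2 y.1 hy
        have hao := (ZFSet.pair_mem_prod.1 (hb.1.1.1 ha)).1
        refine ⟨⟨a, hN.trans _ ho.1 _ hao⟩, ⟨hao, (has2_iff hN).2 ha⟩, ?_⟩
        rintro a' ⟨_, ha'⟩
        exact Subtype.ext (hb.1.2 _ _ _ ((has2_iff hN).1 ha') ha))
    refine ⟨f, hf1, fun a a' b ha ha' h1 h2 => ?_⟩
    have h3 := (has2_iff hN).1 ((hf2 _ _).1 h1).2.2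
    have h4 := (has2_iff hN).1 ((hf2 _ _).1 h2).2.2
    have hbo := ((hf2 _ _).1 h1).2.1
    obtain ⟨v, _, hv⟩ := hb.1.1.2 b.1 hbo
    exact Subtype.ext ((hv _ h3).trans (hv _ h4).symm)

end Pool.Agent.MPb00c97.CHModel
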