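import Pool.Agent.MP_63050e_lc.Statement

/-!
# MP_b00c97_gt: the principle LGP as a first order statement about a model of set theory

All quantifiers range over the model `(M, E)`; `w` is the ordinal `ω` and `o = 0 = ∅`. A function
`x : ω → ω` codes the set of its zeros.
-/

set_option autoImplicit false

namespace Pool.Agent.MP_b00c97_gt.Mod

open MP63050e

universe u

variable {M : Type u} (E : M → M → Prop)

/-- The set of the zeros of `x` is infinite. -/
def InfZ (w o x : M) : Prop := ∀ m, E m w → ∃ n, E n w ∧ LeN E m n ∧ Has E x [n, o]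

/-- The set of the common zeros of `x` and `y` is infinite. -/
def InfZ2 (w o x y : M) : Prop :=
  ∀ m, E m w → ∃ n, E n w ∧ LeN E m n ∧ Has E x [n, o] ∧ Has E y [n, o]

/-- `s` is a sequence `(s_i)_{i ∈ ω}` of functions from `ω` to `ω`. -/
def IsSeqR (w s : M) : Prop :=
  (∃ Y, IsFun E s w Y) ∧ ∀ i x, E i w → Has E s [i, x] → IsFun E x w w

/-- The family `{A : (x, A) ∈ 𝒜}` is hitting: for each sequence of infinite sets it has a member
which has infinite intersection with all of them. -/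
def IsHit (w o 𝒜 x : M) : Prop :=
  ∀ s, IsSeqR E w s → (∀ i y, E i w → Has E s [i, y] → InfZ E w o y) →
    ∃ A, Has E 𝒜 [x, A] ∧ IsFun E A w w ∧ ∀ i y, E i w → Has E s [i, y] → InfZ2 E w o A y

/-- `Θ` is a sequence of binary operations on `ω^ω`. -/
def IsOps (w Θ : M) : Prop :=
  ∀ i x y, E i w → IsFun E x w w → IsFun E y w w →
    ∃ z, IsFun E z w w ∧ ∀ z', Has E Θ [i, x, y, z'] ↔ z' = z

/-- The Laver generic principle. -/
def FLGP : Prop :=
  ∀ w o Θ 𝒜, IsOmega E w → IsEmp E o → IsOps E w Θ → (∀ x, IsFun E x w w → IsHit E w o 𝒜 x) →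
    ∃ X l, (∃ x, E x X) ∧ (∀ x, E x X → IsFun E x w w) ∧ IsFun E l w w ∧
      (∀ i j a b, E i j → E j w → Has E l [i, a] → Has E l [j, b] → E a b) ∧
      (∀ i x y z, E i w → E x X → E y X → Has E Θ [i, x, y, z] → E z X) ∧
      (∀ x, E x X → ∃ A, E A X ∧ Has E 𝒜 [x, A] ∧
        ∃ m, E m w ∧ ∀ k a, E k w → LeN E m k → Has E l [k, a] → Has E A [a, o]) ∧
      (∀ N h, E N X → IsSeqR E w h → ∃ x, E x X ∧ ∃ m, E m w ∧ ∀ n b y j c, E n w → LeN E m n →
        Has E N [n, b] → Has E h [n, y] → E j b → Has E y [j, c] → ¬ Has E x [n, c]) ∧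
      ∀ t, IsFun E t w w → ∃ g, E g X ∧ ∀ f, E f X → ∃ m, E m w ∧ ∀ k a b n c d, E k w →
        LeN E m k → Has E l [k, a] → Has E f [a, b] → E n w → LeN E a n → LeN E n b →
          Has E t [n, c] → LeN E c b → Has E g [n, d] → LeN E c d

end Pool.Agent.MP_b00c97_gt.Mod
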