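import Pool.Agent.MP_b00c97_gt.Mod.Bp
import Pool.Agent.MP_63050e_lc.E4

/-! Names for the reals of the models, and local choices. -/

set_option autoImplicit false
set_option linter.unusedVariables false
set_option linter.unusedSectionVars false
set_option linter.unreachableTactic false
set_option linter.unusedTactic false

namespace Pool.Agent.MP_b00c97_gt.Mod

open Filter MeasureTheory Pool.Agent.BVM Pool.Agent.BVM.BName Pool.Agent.SetModel
  Pool.Agent.MP63050e Pool.Agent.MP7e7dde Pool.Agent.MP9096b7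

variable {B : Type} [CompleteBooleanAlgebra B]

/-! ### Local choices -/

theorem local_choice {ι : Type} (u : ι → BName B) {P : (h : Ult B) → Mdl h → Mdl h → Prop}
    (hP : BPred (fun h : Ult B => h) (fun h (p : BName B × BName B) =>
      P h (Mdl.mk h p.1) (Mdl.mk h p.2)))
    (hex : ∀ i (h : Ult B), ∃ z, P h (Mdl.mk h (u i)) z) :
    ∃ y : ι → BName B, (∀ i (h : Ult B), P h (Mdl.mk h (u i)) (Mdl.mk h (y i))) ∧
      ∀ i j (h : Ult B), Mdl.mk h (u i) = Mdl.mk h (u j) → Mdl.mk h (y i) = Mdl.mk h (y j) := by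
  classical
  have hw : ∀ i, ∃ z : BName B, ∀ h : Ult B, True → P h (Mdl.mk h (u i)) (Mdl.mk h z) := by
    intro i
    refine exists_wit (P := fun h z => P h (Mdl.mk h (u i)) z) ?_ (fun h _ => hex i h)
    exact hP.comp (f := fun x : BName B => (u i, x)) (fun x x' => le_inf (by
      change _ ≤ beq _ _
      rw [beq_refl]; exact le_top) le_rfl)
  choose z hz using hw
  obtain ⟨φ, hφ, hφ'⟩ := hP
  have hφz : ∀ i, φ (u i, z i) = ⊤ := fun i => Ult.eq_top_iff'.2 fun h =>
    (hφ' h (u i, z i)).1 (hz i h trivial)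
  let c : ι → ι → B := fun i j => beq (u j) (u i) ⊓
    (⨆ k : {k : ι // WellOrderingRel k j}, beq (u k.1) (u j))ᶜ
  have hlt : ∀ i j j', WellOrderingRel j j' → c i j ⊓ c i j' ≤ ⊥ := by
    intro i j j' hj
    have h1 : c i j ⊓ c i j' ≤ beq (u j) (u j') := by
      refine le_trans ?_ (beq_trans (u j) (u i) (u j'))
      rw [beq_symm (u i) (u j')]
      exact inf_le_inf inf_le_left inf_le_left
    have h2 : c i j ⊓ c i j' ≤ (beq (u j) (u j'))ᶜ := by
      refine inf_le_right.trans (inf_le_right.trans (compl_le_compl ?_))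
      exact le_iSup (fun k : {k : ι // WellOrderingRel k j'} => beq (u k.1) (u j')) ⟨j, hj⟩
    exact (le_inf h1 h2).trans (by simp)
  have hdis : ∀ i, Pairwise (fun j j' => Disjoint (c i j) (c i j')) := by
    intro i j j' hjj
    rw [disjoint_iff_inf_le]
    rcases trichotomous_of WellOrderingRel j j' with h3 | h3 | h3
    · exact hlt i j j' h3
    · exact absurd h3 hjj
    · rw [inf_comm]; exact hlt i j' j h3
  have hy : ∀ i, ∃ y : BName B, ∀ j, c i j ≤ beq y (z j) := fun i => exists_mix z (c i) (hdis i)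
  choose y hy using hy
  have htop : ∀ i, (⊤ : B) ≤ ⨆ j, c i j := fun i => injI_ex u i
  refine ⟨y, fun i h => ?_, fun i i' h hii => ?_⟩
  · refine (hφ' h (u i, y i)).2 ?_
    refine h.mono (le_trans (htop i) (iSup_le fun j => ?_)) h.top'
    refine le_trans ?_ (hφ (u j, z j) (u i, y i))
    rw [hφz j, inf_top_eq]
    refine le_inf inf_le_left ?_
    change _ ≤ beq (z j) (y i)
    rw [beq_symm]
    exact hy i j
  · rw [Mdl.mk_eq] at hii ⊢
    refine h.mono ?_ hii
    have h1 : beq (u i) (u i') ≤ beq (u i) (u i') ⊓ ⨆ j, c i j := le_inf le_rfl (le_top.trans (htop i))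
    refine h1.trans ?_
    rw [inf_iSup_eq]
    refine iSup_le fun j => ?_
    have h2 : beq (u i) (u i') ⊓ c i j ≤ c i' j := by
      refine le_inf ?_ (inf_le_right.trans inf_le_right)
      refine le_trans ?_ (beq_trans (u j) (u i) (u i'))
      rw [inf_comm]
      exact inf_le_inf_right _ inf_le_left
    refine le_trans ?_ (beq_trans (y i) (z j) (y i'))
    refine le_inf (inf_le_right.trans (hy i j)) ?_
    rw [beq_symm (z j) (y i')]
    exact h2.trans (hy i' j)

/-! ### `ω` is unique -/

theorem omega_sub {h : Ult B} {w w' : Mdl h} (hw : IsOmega (E h) w) (hw' : IsOmega (E h) w') :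
    ∀ z, E h z w → E h z w' := by
  obtain ⟨v, rfl⟩ := w.exists_rep
  obtain ⟨v', rfl⟩ := w'.exists_rep
  by_contra hcon
  push Not at hcon
  obtain ⟨z, hz, hz'⟩ := hcon
  obtain ⟨y, hy⟩ := separation_name (H := fun h : Ult B => h)
    (D := fun h z => ¬ E h z (Mdl.mk h v')) (by (repeat' first | exact BMap.id | apply BMap.fst | apply BMap.snd | exact BTerm.const _ | apply bterm_opair | apply BTerm.of | apply BPred.mem | apply BPred.eq | apply bp_has2 | apply bp_has3 | apply bp_has4 | apply bp_isTuple3 | apply bp_eq_pr | apply bp_isPair | apply bp_isUPair | apply bp_isFun | apply bp_leN | apply bp_infZ | apply bp_infZ2 | apply bp_isSeqR | apply bp_isHit | apply bp_isOps | apply BPred.not | apply BPred.and | apply BPred.or | apply BPred.iff | apply BPred.imp | refine BPred.ex ?_ | refine BPred.all ?_ | exact BPred.const _)) v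
  obtain ⟨a, ha, hmin⟩ := (mod_zfc h).foundation (Mdl.mk h y) ⟨z, (hy h z).2 ⟨hz, hz'⟩⟩
  obtain ⟨ha1, ha2⟩ := (hy h a).1 ha
  rcases hw.2.2.2 a ha1 with he | ⟨b, hb, hs⟩
  · obtain ⟨e, he', hew⟩ := hw'.2.1
    have : a = e := Mdl.ext fun z => ⟨fun hz => absurd hz (he z), fun hz => absurd hz (he' z)⟩
    exact ha2 (this ▸ hew)
  · have hba : E h b a := (hs b).2 (Or.inr rfl)
    have hb' : E h b (Mdl.mk h v') := by
      by_contra hcon
      exact hmin b hba ((hy h b).2 ⟨hb, hcon⟩)
    obtain ⟨c, hc, hsc⟩ := hw'.2.2.1 b hb'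
    have : a = c := Mdl.ext fun z => (hs z).trans (hsc z).symm
    exact ha2 (this ▸ hc)

theorem omega_eq {h : Ult B} {w : Mdl h} (hw : IsOmega (E h) w) : w = wM h :=
  Mdl.ext fun z => ⟨omega_sub hw (isOmega h) z, omega_sub (isOmega h) hw z⟩

theorem emp_eq {h : Ult B} {o : Mdl h} (ho : IsEmp (E h) o) : o = oM h :=
  Mdl.ext fun z => ⟨fun hz => absurd hz (ho z), fun hz => absurd hz (isEmp_vN_zero h z)⟩

/-! ### Natural numbers -/

theorem leN_nM {h : Ult B} {m n : ℕ} : LeN (E h) (nM h m) (nM h n) ↔ m ≤ n := by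
  unfold LeN
  rw [E_vN_vN, vN_inj]
  exact le_iff_lt_or_eq.symm

theorem E_nM_iff {h : Ult B} {n : ℕ} {z : Mdl h} : E h z (nM h n) ↔ ∃ m < n, z = nM h m := by
  induction n with
  | zero =>
    constructor
    · intro hz; exact absurd hz (isEmp_vN_zero h z)
    · rintro ⟨m, hm, -⟩; omega
  | succ n ih =>
    rw [E_vN_succ, ih]
    constructor
    · rintro (⟨m, hm, hz⟩ | hz)
      · exact ⟨m, by omega, hz⟩
      · exact ⟨n, by omega, hz⟩
    · rintro ⟨m, hm, hz⟩
      rcases Nat.lt_succ_iff_lt_or_eq.1 hm with h1 | rfl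
      · exact Or.inl ⟨m, h1, hz⟩
      · exact Or.inr hz

/-! ### Names for reals -/

/-- The name of a measurable function. -/
noncomputable def nmR (F : Ult B → ℕ → ℕ) : BName B := realN (fun n m => bv {ω | F ω n = m})

theorem bv_fib {f : Ult B → ℕ} (hf : Measurable[genM B] f) :
    ∀ᶠ ω in genN B, ∀ m, (ω.V (bv {ω | f ω = m}) ↔ f ω = m) :=
  eventually_countable_forall.2 fun m =>
    bv_spec (A := {ω | f ω = m}) (meas_rel1 hf (fun v => v = m))

theorem bv_part {f : Ult B → ℕ} (hf : Measurable[genM B] f) :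
    IsPart (fun m : ℕ => (bv {ω | f ω = m} : B)) := by
  constructor
  · rw [eq_top_iff, le_iff_gen]
    filter_upwards [bv_fib hf] with ω hω _
    exact ω.iSup_of (fun m : ℕ => (bv {ω | f ω = m} : B)) (f ω) ((hω _).2 rfl)
  · intro m m' hm
    rw [disjoint_iff_inf_le, le_iff_gen]
    filter_upwards [bv_fib hf] with ω hω h
    rw [ω.inf', hω, hω] at h
    exact absurd (h.1.symm.trans h.2) hm

section

variable {F G : Ult B → ℕ → ℕ}

theorem isFun_nmR (hF : Measurable[genM B] F) (h : Ult B) :
    IsFun (E h) (Mdl.mk h (nmR F)) (wM h) (wM h) :=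
  isFun_realN (fun i => bv_part (f := fun ω => F ω i) (meas_coord hF i)) h

theorem has_nmR (hF : Measurable[genM B] F) : ∀ᶠ ω in genN B, ∀ n (b : Mdl ω),
    (Has (E ω) (Mdl.mk ω (nmR F)) [nM ω n, b] ↔ b = nM ω (F ω n)) := by
  have h1 : ∀ᶠ ω in genN B, ∀ n m, (ω.V (bv {ω | F ω n = m}) ↔ F ω n = m) :=
    eventually_countable_forall.2 fun n => bv_fib (f := fun ω => F ω n) (meas_coord hF n)
  filter_upwards [h1] with ω h1 n b
  have h2 : Has (E ω) (Mdl.mk ω (nmR F)) [nM ω n, nM ω (F ω n)] :=
    (has_realN _ ω n _).2 ((h1 n _).2 rfl)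
  constructor
  · intro h3
    exact ((isFun_nmR hF ω).2 _ (E_nM ω n)).unique h3 h2
  · rintro rfl
    exact h2

theorem nmR_eq_iff (hF : Measurable[genM B] F) (hG : Measurable[genM B] G) :
    ∀ᶠ ω in genN B, (Mdl.mk ω (nmR F) = Mdl.mk ω (nmR G) ↔ F ω = G ω) := by
  have h1 := ae_forall_om (B := B) (P := fun h a => ∀ b, Has (E h) (Mdl.mk h (nmR F)) [a, b] →
    Has (E h) (Mdl.mk h (nmR G)) [a, b]) (by (repeat' first | exact BMap.id | apply BMap.fst | apply BMap.snd | exact BTerm.const _ | apply bterm_opair | apply BTerm.of | apply BPred.mem | apply BPred.eq | apply bp_has2 | apply bp_has3 | apply bp_has4 | apply bp_isTuple3 | apply bp_eq_pr | apply bp_isPair | apply bp_isUPair | apply bp_isFun | apply bp_leN | apply bp_infZ | apply bp_infZ2 | apply bp_isSeqR | apply bp_isHit | apply bp_isOps | apply BPred.not | apply BPred.and | apply BPred.or | apply BPred.iff | apply BPred.imp | refine BPred.ex ?_ | refine BPred.all ?_ | exact BPred.const _))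
  have h2 := ae_forall_om (B := B) (P := fun h a => ∀ b, Has (E h) (Mdl.mk h (nmR G)) [a, b] →
    Has (E h) (Mdl.mk h (nmR F)) [a, b]) (by (repeat' first | exact BMap.id | apply BMap.fst | apply BMap.snd | exact BTerm.const _ | apply bterm_opair | apply BTerm.of | apply BPred.mem | apply BPred.eq | apply bp_has2 | apply bp_has3 | apply bp_has4 | apply bp_isTuple3 | apply bp_eq_pr | apply bp_isPair | apply bp_isUPair | apply bp_isFun | apply bp_leN | apply bp_infZ | apply bp_infZ2 | apply bp_isSeqR | apply bp_isHit | apply bp_isOps | apply BPred.not | apply BPred.and | apply BPred.or | apply BPred.iff | apply BPred.imp | refine BPred.ex ?_ | refine BPred.all ?_ | exact BPred.const _))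
  filter_upwards [h1, h2, has_nmR hF, has_nmR hG] with ω h1 h2 h3 h4
  constructor
  · intro h5
    funext n
    have h6 := (h3 n (nM ω (F ω n))).2 rfl
    rw [h5, h4 n] at h6
    exact vN_inj.1 h6
  · intro h5
    apply Mdl.ext
    intro z
    refine ⟨fun_le (isFun_nmR hF ω) (fun a b ha _ hab => h1 (fun n b hb => ?_) a ha b hab) z,
      fun_le (isFun_nmR hG ω) (fun a b ha _ hab => h2 (fun n b hb => ?_) a ha b hab) z⟩
    · rw [h3] at hb
      rw [h4, hb, h5]
    · rw [h4] at hb
      rw [h3, hb, h5]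

end

/-- The code of a name. -/
noncomputable def rcode (x : BName B) (ω : Ult B) (n : ℕ) : ℕ :=
  lst (fun m => {ω : Ult B | Has (E ω) (Mdl.mk ω x) [nM ω n, nM ω m]}) ω

theorem meas_rcode (x : BName B) : Measurable[genM B] (rcode x) := by
  refine meas_pi' fun n => meas_lst fun m => ?_
  refine meas_clop ?_
  exact BPred.clop (P := fun h (_ : PUnit.{1}) => Has (E h) (Mdl.mk h x) [nM h n, nM h m])
    (bp_has2 (BTerm.const _) (BTerm.const _) (BTerm.const _)) PUnit.unit

theorem rcode_congr {x x' : BName B} {ω : Ult B} (H : Mdl.mk ω x = Mdl.mk ω x') :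
    rcode x ω = rcode x' ω := by
  funext n
  unfold rcode lst
  simp only [Set.mem_ofPred_eq, H]

theorem mk_rcode (x : BName B) (h : Ult B) (hx : IsFun (E h) (Mdl.mk h x) (wM h) (wM h)) :
    Mdl.mk h x = Mdl.mk h (nmR (rcode x)) := by
  refine of_gen (Q := fun h : Ult B => IsFun (E h) (Mdl.mk h x) (wM h) (wM h))
    (P := fun h => Mdl.mk h x = Mdl.mk h (nmR (rcode x))) ?_ ?_ ?_ h hx
  · exact BPred.clop (P := fun h (_ : PUnit.{1}) => IsFun (E h) (Mdl.mk h x) (wM h) (wM h))
      (bp_isFun (BTerm.const _) (BTerm.const _) (BTerm.const _)) PUnit.unit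
  · exact BPred.clop (P := fun h (_ : PUnit.{1}) => Mdl.mk h x = Mdl.mk h (nmR (rcode x)))
      (BPred.eq (BTerm.const _) (BTerm.const _)) PUnit.unit
  have h1 := ae_forall_om (B := B) (P := fun h a => ∀ b, Has (E h) (Mdl.mk h x) [a, b] →
    Has (E h) (Mdl.mk h (nmR (rcode x))) [a, b]) (by (repeat' first | exact BMap.id | apply BMap.fst | apply BMap.snd | exact BTerm.const _ | apply bterm_opair | apply BTerm.of | apply BPred.mem | apply BPred.eq | apply bp_has2 | apply bp_has3 | apply bp_has4 | apply bp_isTuple3 | apply bp_eq_pr | apply bp_isPair | apply bp_isUPair | apply bp_isFun | apply bp_leN | apply bp_infZ | apply bp_infZ2 | apply bp_isSeqR | apply bp_isHit | apply bp_isOps | apply BPred.not | apply BPred.and | apply BPred.or | apply BPred.iff | apply BPred.imp | refine BPred.ex ?_ | refine BPred.all ?_ | exact BPred.const _))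
  have h2 : ∀ᶠ ω in genN B, ∀ n : ℕ, (∃ z, E ω z (wM ω) ∧ Has (E ω) (Mdl.mk ω x) [nM ω n, z]) →
      ∃ m : ℕ, Has (E ω) (Mdl.mk ω x) [nM ω n, nM ω m] :=
    eventually_countable_forall.2 fun n =>
      ae_exists_om (P := fun h z => Has (E h) (Mdl.mk h x) [nM h n, z]) (by (repeat' first | exact BMap.id | apply BMap.fst | apply BMap.snd | exact BTerm.const _ | apply bterm_opair | apply BTerm.of | apply BPred.mem | apply BPred.eq | apply bp_has2 | apply bp_has3 | apply bp_has4 | apply bp_isTuple3 | apply bp_eq_pr | apply bp_isPair | apply bp_isUPair | apply bp_isFun | apply bp_leN | apply bp_infZ | apply bp_infZ2 | apply bp_isSeqR | apply bp_isHit | apply bp_isOps | apply BPred.not | apply BPred.and | apply BPred.or | apply BPred.iff | apply BPred.imp | refine BPred.ex ?_ | refine BPred.all ?_ | exact BPred.const _))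
  filter_upwards [h1, h2, has_nmR (meas_rcode x)] with ω h1 h2 h3 hxω
  have key : ∀ a, E ω a (wM ω) → ∀ b, Has (E ω) (Mdl.mk ω x) [a, b] →
      Has (E ω) (Mdl.mk ω (nmR (rcode x))) [a, b] := by
    refine h1 fun n b hb => ?_
    obtain ⟨m, hm⟩ := h2 n ⟨b, (isFun_has hxω hb).2, hb⟩
    have h4 : Has (E ω) (Mdl.mk ω x) [nM ω n, nM ω (rcode x ω n)] :=
      lst_mem (T := fun m => {ω : Ult B | Has (E ω) (Mdl.mk ω x) [nM ω n, nM ω m]}) ⟨m, hm⟩
    rw [h3]
    exact (hxω.2 _ (E_nM ω n)).unique hb h4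
  apply Mdl.ext
  intro z
  refine ⟨fun_le hxω (fun a b ha _ hab => key a ha b hab) z,
    fun_le (isFun_nmR (meas_rcode x) ω) (fun a b ha _ hab => ?_) z⟩
  obtain ⟨b', hb', -⟩ := hxω.2 a ha
  have := ((isFun_nmR (meas_rcode x) ω).2 a ha).unique hab (key a ha b' hb')
  rw [this]
  exact hb'

/-! ### Names for sequences of reals -/

/-- The rows of a matrix. -/
def row (G : Ult B → ℕ → ℕ) (i : ℕ) (ω : Ult B) (n : ℕ) : ℕ := G ω (Nat.pair i n)

theorem meas_row {G : Ult B → ℕ → ℕ} (hG : Measurable[genM B] G) (i : ℕ) :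
    Measurable[genM B] (row G i) := meas_pi' fun n => meas_coord hG (Nat.pair i n)

/-- The name of a sequence of reals. -/
noncomputable def seqN (G : Ult B → ℕ → ℕ) : BName B :=
  BName.mk ℕ (fun i => opair (vN i) (nmR (row G i))) (fun _ => ⊤)

theorem has_seqN (G : Ult B → ℕ → ℕ) (h : Ult B) (i : ℕ) (y : Mdl h) :
    Has (E h) (Mdl.mk h (seqN G)) [nM h i, y] ↔ y = Mdl.mk h (nmR (row G i)) := by
  constructor
  · intro H
    obtain ⟨y, rfl⟩ := y.exists_rep
    rw [has_iff (by simp)] at H
    have H' : E h (Mdl.mk h (opair (vN i) y)) (Mdl.mk h (seqN G)) := H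
    refine forall_mem' (P := fun h p => ∀ x, p = pr h (nM h i) x → x = Mdl.mk h (nmR (row G i)))
      _ _ ?_ ?_ h _ H' _ rfl
    · (repeat' first | exact BMap.id | apply BMap.fst | apply BMap.snd | exact BTerm.const _ | apply bterm_opair | apply BTerm.of | apply BPred.mem | apply BPred.eq | apply bp_has2 | apply bp_has3 | apply bp_has4 | apply bp_isTuple3 | apply bp_eq_pr | apply bp_isPair | apply bp_isUPair | apply bp_isFun | apply bp_leN | apply bp_infZ | apply bp_infZ2 | apply bp_isSeqR | apply bp_isHit | apply bp_isOps | apply BPred.not | apply BPred.and | apply BPred.or | apply BPred.iff | apply BPred.imp | refine BPred.ex ?_ | refine BPred.all ?_ | exact BPred.const _)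
    · intro h j _ x hx
      obtain ⟨h1, h2⟩ := pr_inj.1 (show pr h (nM h j) (Mdl.mk h (nmR (row G j))) =
        pr h (nM h i) x from hx)
      rw [vN_inj] at h1
      subst h1
      exact h2.symm
  · rintro rfl
    rw [has_iff (by simp)]
    exact E_of_coe (e := fun i => opair (vN i) (nmR (row G i))) (i := i) h.top'

theorem seqN_pair (G : Ult B → ℕ → ℕ) (h : Ult B) (p : Mdl h) (hp : E h p (Mdl.mk h (seqN G))) :
    ∃ a b, E h a (wM h) ∧ E h b (Mdl.mk h (BName.mk ℕ (fun i => nmR (row G i)) (fun _ => ⊤))) ∧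
      IsPair (E h) p a b := by
  refine forall_mem' (P := fun h p => ∃ a b, E h a (wM h) ∧
    E h b (Mdl.mk h (BName.mk ℕ (fun i => nmR (row G i)) (fun _ => ⊤))) ∧
      IsPair (E h) p a b) _ _ ?_ ?_ h p hp
  · (repeat' first | exact BMap.id | apply BMap.fst | apply BMap.snd | exact BTerm.const _ | apply bterm_opair | apply BTerm.of | apply BPred.mem | apply BPred.eq | apply bp_has2 | apply bp_has3 | apply bp_has4 | apply bp_isTuple3 | apply bp_eq_pr | apply bp_isPair | apply bp_isUPair | apply bp_isFun | apply bp_leN | apply bp_infZ | apply bp_infZ2 | apply bp_isSeqR | apply bp_isHit | apply bp_isOps | apply BPred.not | apply BPred.and | apply BPred.or | apply BPred.iff | apply BPred.imp | refine BPred.ex ?_ | refine BPred.all ?_ | exact BPred.const _)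
  · intro h i _
    exact ⟨nM h i, Mdl.mk h (nmR (row G i)), E_nM h i,
      E_of_coe (e := fun i => nmR (row G i)) (i := i) h.top', isPair_iff.2 rfl⟩

theorem isFun_seqN (G : Ult B → ℕ → ℕ) (h : Ult B) : IsFun (E h) (Mdl.mk h (seqN G)) (wM h)
    (Mdl.mk h (BName.mk ℕ (fun i => nmR (row G i)) (fun _ => ⊤))) := by
  refine ⟨fun p hp => seqN_pair G h p hp, ?_⟩
  refine forall_om (P := fun h a => ∃! b, Has (E h) (Mdl.mk h (seqN G)) [a, b]) ?_ clop_true
    ?_ h trivial
  · unfold ExistsUnique
    (repeat' first | exact BMap.id | apply BMap.fst | apply BMap.snd | exact BTerm.const _ | apply bterm_opair | apply BTerm.of | apply BPred.mem | apply BPred.eq | apply bp_has2 | apply bp_has3 | apply bp_has4 | apply bp_isTuple3 | apply bp_eq_pr | apply bp_isPair | apply bp_isUPair | apply bp_isFun | apply bp_leN | apply bp_infZ | apply bp_infZ2 | apply bp_isSeqR | apply bp_isHit | apply bp_isOps | apply BPred.not | apply BPred.and | apply BPred.or | apply BPred.iff | apply BPred.imp | refine BPred.ex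 ?_ | refine BPred.all ?_ | exact BPred.const _)
  · intro h _ i
    exact ⟨_, (has_seqN G h i _).2 rfl, fun b hb => (has_seqN G h i b).1 hb⟩

theorem isSeqR_seqN {G : Ult B → ℕ → ℕ} (hG : Measurable[genM B] G) (h : Ult B) :
    IsSeqR (E h) (wM h) (Mdl.mk h (seqN G)) := by
  refine ⟨⟨_, isFun_seqN G h⟩, ?_⟩
  intro i x hi
  refine forall_om (P := fun h i => ∀ x, Has (E h) (Mdl.mk h (seqN G)) [i, x] →
    IsFun (E h) x (wM h) (wM h)) ?_ clop_true ?_ h trivial i hi x
  · (repeat' first | exact BMap.id | apply BMap.fst | apply BMap.snd | exact BTerm.const _ | apply bterm_opair | apply BTerm.of | apply BPred.mem | apply BPred.eq | apply bp_has2 | apply bp_has3 | apply bp_has4 | apply bp_isTuple3 | apply bp_eq_pr | apply bp_isPair | apply bp_isUPair | apply bp_isFun | apply bp_leN | apply bp_infZ | apply bp_infZ2 | apply bp_isSeqR | apply bp_isHit | apply bp_isOps | apply BPred.not | apply BPred.and | apply BPred.or | apply BPred.iff | apply BPred.imp | refine BPred.ex ?_ | refine BPred.all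 ?_ | exact BPred.const _)
  · intro h _ i x hx
    rw [has_seqN] at hx
    rw [hx]
    exact isFun_nmR (meas_row hG i) h

theorem seqN_eq {G G' : Ult B → ℕ → ℕ} (hG : Measurable[genM B] G) (hG' : Measurable[genM B] G') :
    ∀ᶠ ω in genN B, G ω = G' ω → Mdl.mk ω (seqN G) = Mdl.mk ω (seqN G') := by
  have h1 := ae_forall_om (B := B) (P := fun h a => ∀ b, Has (E h) (Mdl.mk h (seqN G)) [a, b] →
    Has (E h) (Mdl.mk h (seqN G')) [a, b]) (by (repeat' first | exact BMap.id | apply BMap.fst | apply BMap.snd | exact BTerm.const _ | apply bterm_opair | apply BTerm.of | apply BPred.mem | apply BPred.eq | apply bp_has2 | apply bp_has3 | apply bp_has4 | apply bp_isTuple3 | apply bp_eq_pr | apply bp_isPair | apply bp_isUPair | apply bp_isFun | apply bp_leN | apply bp_infZ | apply bp_infZ2 | apply bp_isSeqR | apply bp_isHit | apply bp_isOps | apply BPred.not | apply BPred.and | apply BPred.or | apply BPred.iff | apply BPred.imp | refine BPred.ex ?_ | refine BPred.all ?_ | exact BPred.const _))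
  have h2 := ae_forall_om (B := B) (P := fun h a => ∀ b, Has (E h) (Mdl.mk h (seqN G')) [a, b] →
    Has (E h) (Mdl.mk h (seqN G)) [a, b]) (by (repeat' first | exact BMap.id | apply BMap.fst | apply BMap.snd | exact BTerm.const _ | apply bterm_opair | apply BTerm.of | apply BPred.mem | apply BPred.eq | apply bp_has2 | apply bp_has3 | apply bp_has4 | apply bp_isTuple3 | apply bp_eq_pr | apply bp_isPair | apply bp_isUPair | apply bp_isFun | apply bp_leN | apply bp_infZ | apply bp_infZ2 | apply bp_isSeqR | apply bp_isHit | apply bp_isOps | apply BPred.not | apply BPred.and | apply BPred.or | apply BPred.iff | apply BPred.imp | refine BPred.ex ?_ | refine BPred.all ?_ | exact BPred.const _))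
  have h3 : ∀ᶠ ω in genN B, ∀ i : ℕ, (Mdl.mk ω (nmR (row G i)) = Mdl.mk ω (nmR (row G' i)) ↔
      row G i ω = row G' i ω) :=
    eventually_countable_forall.2 fun i => nmR_eq_iff (meas_row hG i) (meas_row hG' i)
  filter_upwards [h1, h2, h3] with ω h1 h2 h3 h
  have h4 : ∀ i, row G i ω = row G' i ω := fun i => by funext n; simp only [row, h]
  apply Mdl.ext
  intro z
  refine ⟨fun_le (isFun_seqN G ω) (fun a b ha _ hab => h1 (fun n b hb => ?_) a ha b hab) z,
    fun_le (isFun_seqN G' ω) (fun a b ha _ hab => h2 (fun n b hb => ?_) a ha b hab) z⟩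
  · rw [has_seqN] at hb ⊢
    rw [hb]
    exact (h3 n).2 (h4 n)
  · rw [has_seqN] at hb ⊢
    rw [hb]
    exact ((h3 n).2 (h4 n)).symm

/-- The matrix of a name of a sequence of reals. -/
theorem exists_scode (s : BName B) : ∃ G : Ult B → ℕ → ℕ, Measurable[genM B] G ∧
    ∀ h : Ult B, IsSeqR (E h) (wM h) (Mdl.mk h s) → ∀ n y,
      Has (E h) (Mdl.mk h s) [nM h n, y] → y = Mdl.mk h (nmR (row G n)) := by
  have h1 : ∀ n : ℕ, ∃ y : BName B, ∀ h : Ult B, IsSeqR (E h) (wM h) (Mdl.mk h s) →
      Has (E h) (Mdl.mk h s) [nM h n, Mdl.mk h y] := by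
    intro n
    refine exists_wit (P := fun h y => Has (E h) (Mdl.mk h s) [nM h n, y]) (by (repeat' first | exact BMap.id | apply BMap.fst | apply BMap.snd | exact BTerm.const _ | apply bterm_opair | apply BTerm.of | apply BPred.mem | apply BPred.eq | apply bp_has2 | apply bp_has3 | apply bp_has4 | apply bp_isTuple3 | apply bp_eq_pr | apply bp_isPair | apply bp_isUPair | apply bp_isFun | apply bp_leN | apply bp_infZ | apply bp_infZ2 | apply bp_isSeqR | apply bp_isHit | apply bp_isOps | apply BPred.not | apply BPred.and | apply BPred.or | apply BPred.iff | apply BPred.imp | refine BPred.ex ?_ | refine BPred.all ?_ | exact BPred.const _)) ?_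
    intro h hs
    obtain ⟨⟨Y, hY⟩, -⟩ := hs
    exact (hY.2 _ (E_nM h n)).exists
  choose y hy using h1
  refine ⟨fun ω k => rcode (y k.unpair.1) ω k.unpair.2, ?_, ?_⟩
  · exact meas_pi' fun k => meas_coord (meas_rcode (y k.unpair.1)) _
  · intro h hs n z hz
    have h2 : z = Mdl.mk h (y n) := by
      have h4 := hy n h hs
      obtain ⟨⟨Y, hY⟩, -⟩ := hs
      exact (hY.2 _ (E_nM h n)).unique hz h4
    have h3 : row (fun ω k => rcode (y k.unpair.1) ω k.unpair.2) n = rcode (y n) := by
      funext ω k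
      simp [row]
    rw [h3, h2]
    exact mk_rcode _ _ (hs.2 _ _ (E_nM h n) (hy n h hs))

end Pool.Agent.MP_b00c97_gt.Mod
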