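import Pool.Agent.MP_b00c97_gt.Mod.Nmr
import Pool.Agent.MP_b00c97_gt.Lav.Defs2

/-! The Boolean form of the Laver generic principle implies its first order form in the models. -/

set_option autoImplicit false
set_option linter.unusedVariables false
set_option linter.unusedSectionVars false
set_option linter.unreachableTactic false
set_option linter.unusedTactic false

namespace Pool.Agent.MP_b00c97_gt.Mod

open Filter MeasureTheory Pool.Agent.BVM Pool.Agent.BVM.BName Pool.Agent.SetModel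
  Pool.Agent.MP63050e Pool.Agent.MP7e7dde Pool.Agent.MP9096b7

variable {B : Type} [CompleteBooleanAlgebra B]

section ops

variable (Θ 𝒜 : BName B)

/-- The hypotheses of the principle hold. -/
def Hyp (h : Ult B) : Prop :=
  IsOps (E h) (wM h) (Mdl.mk h Θ) ∧
    ∀ x, IsFun (E h) x (wM h) (wM h) → IsHit (E h) (wM h) (oM h) (Mdl.mk h 𝒜) x

theorem bp_hyp {Γ : Type*} [BSet B Γ] :
    BPred (fun h : Ult B => h) (fun h (_ : Γ) => Hyp Θ 𝒜 h) := by
  unfold Hyp
  (repeat' first | exact BMap.id | apply BMap.fst | apply BMap.snd | exact BTerm.const _ | apply bterm_opair | apply BTerm.of | apply BPred.mem | apply BPred.eq | apply bp_has2 | apply bp_has3 | apply bp_has4 | apply bp_isTuple3 | apply bp_eq_pr | apply bp_isPair | apply bp_isUPair | apply bp_isFun | apply bp_leN | apply bp_infZ | apply bp_infZ2 | apply bp_isSeqR | apply bp_isHit | apply bp_isOps | apply BPred.not | apply BPred.and | apply BPred.or | apply BPred.iff | apply BPred.imp | refine BPred.ex ?_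 | refine BPred.all ?_ | exact BPred.const _)

theorem clop_hyp : Clop (Hyp Θ 𝒜) :=
  BPred.clop (P := fun h (_ : PUnit.{1}) => Hyp Θ 𝒜 h) (bp_hyp Θ 𝒜) PUnit.unit

/-- The measurable functions. -/
abbrev MF (B : Type) [CompleteBooleanAlgebra B] : Type :=
  {F : Ult B → ℕ → ℕ // Measurable[genM B] F}

theorem exists_opN (i : ℕ) : ∃ y : MF B × MF B → BName B,
    (∀ p (h : Ult B), Hyp Θ 𝒜 h → IsFun (E h) (Mdl.mk h (y p)) (wM h) (wM h) ∧
      ∀ z', Has (E h) (Mdl.mk h Θ) [nM h i, Mdl.mk h (nmR p.1.1), Mdl.mk h (nmR p.2.1), z'] ↔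
        z' = Mdl.mk h (y p)) ∧
    ∀ p q (h : Ult B), Mdl.mk h (nmR p.1.1) = Mdl.mk h (nmR q.1.1) →
      Mdl.mk h (nmR p.2.1) = Mdl.mk h (nmR q.2.1) → Mdl.mk h (y p) = Mdl.mk h (y q) := by
  obtain ⟨y, hy1, hy2⟩ := local_choice (ι := MF B × MF B) (fun p => opair (nmR p.1.1) (nmR p.2.1))
    (P := fun h a z => Hyp Θ 𝒜 h → ∀ x y, a = pr h x y → IsFun (E h) x (wM h) (wM h) →
      IsFun (E h) y (wM h) (wM h) → (IsFun (E h) z (wM h) (wM h) ∧
        ∀ z', Has (E h) (Mdl.mk h Θ) [nM h i, x, y, z'] ↔ z' = z)) (by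
      unfold Hyp
      (repeat' first | exact BMap.id | apply BMap.fst | apply BMap.snd | exact BTerm.const _ | apply bterm_opair | apply BTerm.of | apply BPred.mem | apply BPred.eq | apply bp_has2 | apply bp_has3 | apply bp_has4 | apply bp_isTuple3 | apply bp_eq_pr | apply bp_isPair | apply bp_isUPair | apply bp_isFun | apply bp_leN | apply bp_infZ | apply bp_infZ2 | apply bp_isSeqR | apply bp_isHit | apply bp_isOps | apply BPred.not | apply BPred.and | apply BPred.or | apply BPred.iff | apply BPred.imp | refine BPred.ex ?_ | refine BPred.all ?_ | exact BPred.const _)) (by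
      intro p h
      by_cases hh : Hyp Θ 𝒜 h
      · obtain ⟨z, hz1, hz2⟩ := hh.1 (nM h i) (Mdl.mk h (nmR p.1.1)) (Mdl.mk h (nmR p.2.1))
          (E_nM h i) (isFun_nmR p.1.2 h) (isFun_nmR p.2.2 h)
        refine ⟨z, fun _ x y hxy _ _ => ?_⟩
        obtain ⟨rfl, rfl⟩ := pr_inj.1 (show pr h (Mdl.mk h (nmR p.1.1)) (Mdl.mk h (nmR p.2.1)) =
          pr h x y from hxy)
        exact ⟨hz1, hz2⟩
      · exact ⟨oM h, fun hh' => absurd hh' hh⟩)
  refine ⟨y, fun p h hh => ?_, fun p q h h1 h2 => hy2 p q h ?_⟩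
  · exact hy1 p h hh _ _ rfl (isFun_nmR p.1.2 h) (isFun_nmR p.2.2 h)
  · exact pr_inj.2 ⟨h1, h2⟩

theorem exists_hitN : ∃ y : MF B × MF B → BName B,
    (∀ p (h : Ult B), Hyp Θ 𝒜 h →
      (∀ i y', E h i (wM h) → Has (E h) (Mdl.mk h (seqN p.2.1)) [i, y'] →
        InfZ (E h) (wM h) (oM h) y') →
      Has (E h) (Mdl.mk h 𝒜) [Mdl.mk h (nmR p.1.1), Mdl.mk h (y p)] ∧
      IsFun (E h) (Mdl.mk h (y p)) (wM h) (wM h) ∧
      ∀ i y', E h i (wM h) → Has (E h) (Mdl.mk h (seqN p.2.1)) [i, y'] →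
        InfZ2 (E h) (wM h) (oM h) (Mdl.mk h (y p)) y') ∧
    ∀ p q (h : Ult B), Mdl.mk h (nmR p.1.1) = Mdl.mk h (nmR q.1.1) →
      Mdl.mk h (seqN p.2.1) = Mdl.mk h (seqN q.2.1) → Mdl.mk h (y p) = Mdl.mk h (y q) := by
  obtain ⟨y, hy1, hy2⟩ := local_choice (ι := MF B × MF B) (fun p => opair (nmR p.1.1) (seqN p.2.1))
    (P := fun h a z => Hyp Θ 𝒜 h → ∀ x s, a = pr h x s → IsFun (E h) x (wM h) (wM h) →
      IsSeqR (E h) (wM h) s → (∀ i y', E h i (wM h) → Has (E h) s [i, y'] →
        InfZ (E h) (wM h) (oM h) y') →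
      (Has (E h) (Mdl.mk h 𝒜) [x, z] ∧ IsFun (E h) z (wM h) (wM h) ∧
      ∀ i y', E h i (wM h) → Has (E h) s [i, y'] → InfZ2 (E h) (wM h) (oM h) z y')) (by
      unfold Hyp
      (repeat' first | exact BMap.id | apply BMap.fst | apply BMap.snd | exact BTerm.const _ | apply bterm_opair | apply BTerm.of | apply BPred.mem | apply BPred.eq | apply bp_has2 | apply bp_has3 | apply bp_has4 | apply bp_isTuple3 | apply bp_eq_pr | apply bp_isPair | apply bp_isUPair | apply bp_isFun | apply bp_leN | apply bp_infZ | apply bp_infZ2 | apply bp_isSeqR | apply bp_isHit | apply bp_isOps | apply BPred.not | apply BPred.and | apply BPred.or | apply BPred.iff | apply BPred.imp | refine BPred.ex ?_ | refine BPred.all ?_ | exact BPred.const _)) (by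
      intro p h
      by_cases hh : Hyp Θ 𝒜 h ∧ ∀ i y', E h i (wM h) → Has (E h) (Mdl.mk h (seqN p.2.1)) [i, y'] →
        InfZ (E h) (wM h) (oM h) y'
      · obtain ⟨A, hA⟩ := hh.1.2 (Mdl.mk h (nmR p.1.1)) (isFun_nmR p.1.2 h)
          (Mdl.mk h (seqN p.2.1)) (isSeqR_seqN p.2.2 h) hh.2
        refine ⟨A, fun _ x y hxy _ _ _ => ?_⟩
        obtain ⟨rfl, rfl⟩ := pr_inj.1 (show pr h (Mdl.mk h (nmR p.1.1)) (Mdl.mk h (seqN p.2.1)) =
          pr h x y from hxy)
        exact hA
      · refine ⟨oM h, fun hh' x y hxy _ _ h3 => ?_⟩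
        obtain ⟨rfl, rfl⟩ := pr_inj.1 (show pr h (Mdl.mk h (nmR p.1.1)) (Mdl.mk h (seqN p.2.1)) =
          pr h x y from hxy)
        exact absurd ⟨hh', h3⟩ hh)
  refine ⟨y, fun p h hh hs => ?_, fun p q h h1 h2 => hy2 p q h ?_⟩
  · exact hy1 p h hh _ _ rfl (isFun_nmR p.1.2 h) (isSeqR_seqN p.2.2 h) hs
  · exact pr_inj.2 ⟨h1, h2⟩

theorem exists_Op : ∃ Op : ℕ → (Ult B → ℕ → ℕ) → (Ult B → ℕ → ℕ) → (Ult B → ℕ → ℕ),
    (∀ i (F G : Ult B → ℕ → ℕ), Measurable[genM B] F → Measurable[genM B] G →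
      Measurable[genM B] (Op i F G)) ∧
    (∀ i (F G F' G' : Ult B → ℕ → ℕ), Measurable[genM B] F → Measurable[genM B] G →
      Measurable[genM B] F' → Measurable[genM B] G' →
        ∀ᶠ ω in genN B, F ω = F' ω → G ω = G' ω → Op i F G ω = Op i F' G' ω) ∧
    (∀ (i : ℕ) (F G : Ult B → ℕ → ℕ), Measurable[genM B] F → Measurable[genM B] G →
      ∀ h : Ult B, Hyp Θ 𝒜 h → ∀ z,
        Has (E h) (Mdl.mk h Θ) [nM h i, Mdl.mk h (nmR F), Mdl.mk h (nmR G), z] →
          z = Mdl.mk h (nmR (Op (i + 1) F G))) ∧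
    (∀ (v s : Ult B → ℕ → ℕ), Measurable[genM B] v → Measurable[genM B] s →
      ∀ h : Ult B, Hyp Θ 𝒜 h →
        (∀ i y', E h i (wM h) → Has (E h) (Mdl.mk h (seqN s)) [i, y'] →
          InfZ (E h) (wM h) (oM h) y') →
        Has (E h) (Mdl.mk h 𝒜) [Mdl.mk h (nmR v), Mdl.mk h (nmR (Op 0 v s))] ∧
        ∀ i y', E h i (wM h) → Has (E h) (Mdl.mk h (seqN s)) [i, y'] →
          InfZ2 (E h) (wM h) (oM h) (Mdl.mk h (nmR (Op 0 v s))) y') := by
  classical
  obtain ⟨yh, hyh1, hyh2⟩ := exists_hitN Θ 𝒜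
  choose yo hyo1 hyo2 using exists_opN Θ 𝒜
  let NN : ℕ → MF B × MF B → BName B := fun i p => match i with
    | 0 => yh p
    | i + 1 => yo i p
  let Op : ℕ → (Ult B → ℕ → ℕ) → (Ult B → ℕ → ℕ) → (Ult B → ℕ → ℕ) := fun i F G =>
    if h : Measurable[genM B] F ∧ Measurable[genM B] G then
      rcode (NN i (⟨F, h.1⟩, ⟨G, h.2⟩)) else fun _ _ => 0
  have hOp : ∀ i (F G : Ult B → ℕ → ℕ) (hF : Measurable[genM B] F) (hG : Measurable[genM B] G),
      Op i F G = rcode (NN i (⟨F, hF⟩, ⟨G, hG⟩)) := fun i F G hF hG => by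
    simp only [Op]
    rw [dif_pos ⟨hF, hG⟩]
  refine ⟨Op, ?_, ?_, ?_, ?_⟩
  · intro i F G hF hG
    rw [hOp i F G hF hG]
    exact meas_rcode _
  · intro i F G F' G' hF hG hF' hG'
    rw [hOp i F G hF hG, hOp i F' G' hF' hG']
    filter_upwards [nmR_eq_iff hF hF', nmR_eq_iff hG hG', seqN_eq hG hG'] with ω h1 h2 h3 h4 h5
    apply rcode_congr
    match i with
    | 0 => exact hyh2 _ _ ω (h1.2 h4) (h3 h5)
    | i + 1 => exact hyo2 i _ _ ω (h1.2 h4) (h2.2 h5)
  · intro i F G hF hG h hh z hz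
    rw [hOp (i + 1) F G hF hG]
    obtain ⟨h1, h2⟩ := hyo1 i (⟨F, hF⟩, ⟨G, hG⟩) h hh
    rw [(h2 z).1 hz]
    exact mk_rcode _ h h1
  · intro v s hv hs h hh hinf
    rw [hOp 0 v s hv hs]
    obtain ⟨h1, h2, h3⟩ := hyh1 (⟨v, hv⟩, ⟨s, hs⟩) h hh hinf
    have h4 : Mdl.mk h (NN 0 (⟨v, hv⟩, ⟨s, hs⟩)) =
        Mdl.mk h (nmR (rcode (NN 0 (⟨v, hv⟩, ⟨s, hs⟩)))) := mk_rcode _ h h2
    rw [← h4]
    exact ⟨h1, h3⟩

end ops

/-! ### Infinite sets of zeros -/

theorem infZ_of {G : Ult B → ℕ → ℕ} (hG : Measurable[genM B] G) : ∀ᶠ ω in genN B,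
    (∀ i, {n | G ω (Nat.pair i n) = 0}.Infinite) →
      ∀ i y, E ω i (wM ω) → Has (E ω) (Mdl.mk ω (seqN G)) [i, y] →
        InfZ (E ω) (wM ω) (oM ω) y := by
  have h1 := ae_forall_om (B := B) (P := fun h i => ∀ y, Has (E h) (Mdl.mk h (seqN G)) [i, y] →
    InfZ (E h) (wM h) (oM h) y) (by (repeat' first | exact BMap.id | apply BMap.fst | apply BMap.snd | exact BTerm.const _ | apply bterm_opair | apply BTerm.of | apply BPred.mem | apply BPred.eq | apply bp_has2 | apply bp_has3 | apply bp_has4 | apply bp_isTuple3 | apply bp_eq_pr | apply bp_isPair | apply bp_isUPair | apply bp_isFun | apply bp_leN | apply bp_infZ | apply bp_infZ2 | apply bp_isSeqR | apply bp_isHit | apply bp_isOps | apply BPred.not | apply BPred.and | apply BPred.or | apply BPred.iff | apply BPred.imp | refine BPred.ex ?_ | refine BPred.all ?_ | exact BPred.const _))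
  have h2 : ∀ᶠ ω in genN B, ∀ i : ℕ, (∀ m : ℕ, ∃ n, E ω n (wM ω) ∧ LeN (E ω) (nM ω m) n ∧
      Has (E ω) (Mdl.mk ω (nmR (row G i))) [n, oM ω]) → ∀ m, E ω m (wM ω) →
        ∃ n, E ω n (wM ω) ∧ LeN (E ω) m n ∧
      Has (E ω) (Mdl.mk ω (nmR (row G i))) [n, oM ω] :=
    eventually_countable_forall.2 fun i => ae_forall_om (P := fun h m => ∃ n, E h n (wM h) ∧
      LeN (E h) m n ∧ Has (E h) (Mdl.mk h (nmR (row G i))) [n, oM h]) (by (repeat' first | exact BMap.id | apply BMap.fst | apply BMap.snd | exact BTerm.const _ | apply bterm_opair | apply BTerm.of | apply BPred.mem | apply BPred.eq | apply bp_has2 | apply bp_has3 | apply bp_has4 | apply bp_isTuple3 | apply bp_eq_pr | apply bp_isPair | apply bp_isUPair | apply bp_isFun | apply bp_leN | apply bp_infZ | apply bp_infZ2 | apply bp_isSeqR | apply bp_isHit | apply bp_isOps | apply BPred.not | apply BPred.and | apply BPred.or | apply BPred.iff | apply BPred.imp | refine BPred.ex ?_ | refine BPred.all ?_ | exact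 BPred.const _))
  have h3 : ∀ᶠ ω in genN B, ∀ i : ℕ, ∀ n (b : Mdl ω),
    (Has (E ω) (Mdl.mk ω (nmR (row G i))) [nM ω n, b] ↔ b = nM ω (row G i ω n)) :=
    eventually_countable_forall.2 fun i => has_nmR (meas_row hG i)
  filter_upwards [h1, h2, h3] with ω h1 h2 h3 hinf i y hi
  refine h1 (fun i y hy => ?_) i hi y
  rw [has_seqN] at hy
  rw [hy]
  refine h2 i fun m => ?_
  obtain ⟨n, hn, hmn⟩ := (hinf i).exists_gt m
  refine ⟨nM ω n, E_nM ω n, leN_nM.2 hmn.le, ?_⟩
  rw [h3, vN_inj]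
  exact Eq.symm hn

theorem inf_of_infZ2 {A G : Ult B → ℕ → ℕ} (hA : Measurable[genM B] A)
    (hG : Measurable[genM B] G) : ∀ᶠ ω in genN B,
    (∀ i y, E ω i (wM ω) → Has (E ω) (Mdl.mk ω (seqN G)) [i, y] →
        InfZ2 (E ω) (wM ω) (oM ω) (Mdl.mk ω (nmR A)) y) →
      ∀ i, {n | A ω n = 0 ∧ G ω (Nat.pair i n) = 0}.Infinite := by
  have h2 : ∀ᶠ ω in genN B, ∀ i : ℕ, ∀ m : ℕ, (∃ n, E ω n (wM ω) ∧ (LeN (E ω) (nM ω m) n ∧
      Has (E ω) (Mdl.mk ω (nmR A)) [n, oM ω] ∧
      Has (E ω) (Mdl.mk ω (nmR (row G i))) [n, oM ω])) → ∃ n : ℕ, (LeN (E ω) (nM ω m) (nM ω n) ∧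
      Has (E ω) (Mdl.mk ω (nmR A)) [nM ω n, oM ω] ∧
      Has (E ω) (Mdl.mk ω (nmR (row G i))) [nM ω n, oM ω]) :=
    eventually_countable_forall.2 fun i => eventually_countable_forall.2 fun m =>
      ae_exists_om (P := fun h n => LeN (E h) (nM h m) n ∧
        Has (E h) (Mdl.mk h (nmR A)) [n, oM h] ∧
        Has (E h) (Mdl.mk h (nmR (row G i))) [n, oM h]) (by (repeat' first | exact BMap.id | apply BMap.fst | apply BMap.snd | exact BTerm.const _ | apply bterm_opair | apply BTerm.of | apply BPred.mem | apply BPred.eq | apply bp_has2 | apply bp_has3 | apply bp_has4 | apply bp_isTuple3 | apply bp_eq_pr | apply bp_isPair | apply bp_isUPair | apply bp_isFun | apply bp_leN | apply bp_infZ | apply bp_infZ2 | apply bp_isSeqR | apply bp_isHit | apply bp_isOps | apply BPred.not | apply BPred.and | apply BPred.or | apply BPred.iff | apply BPred.imp | refine BPred.ex ?_ | refine BPred.all ?_ | exact BPred.const _))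
  have h3 : ∀ᶠ ω in genN B, ∀ i : ℕ, ∀ n (b : Mdl ω),
    (Has (E ω) (Mdl.mk ω (nmR (row G i))) [nM ω n, b] ↔ b = nM ω (row G i ω n)) :=
    eventually_countable_forall.2 fun i => has_nmR (meas_row hG i)
  filter_upwards [h2, h3, has_nmR hA] with ω h2 h3 h4 H i
  refine Set.infinite_of_forall_exists_gt fun m => ?_
  obtain ⟨n, hn1, hn2, hn3⟩ := h2 i (m + 1) (H (nM ω i) _ (E_nM ω i) ((has_seqN G ω i _).2 rfl)
    (nM ω (m + 1)) (E_nM ω _))
  rw [leN_nM] at hn1
  rw [h4, vN_inj] at hn2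
  rw [h3, vN_inj] at hn3
  exact ⟨n, ⟨hn2.symm, hn3.symm⟩, by omega⟩

/-! ### The theorem -/

theorem flgp_of_lprop (hB : Lav.LProp B) (h : Ult B) : FLGP (E h) := by
  intro w o Θ 𝒜 hw ho hΘ h𝒜
  obtain rfl := omega_eq hw
  obtain rfl := emp_eq ho
  obtain ⟨Θ, rfl⟩ := Θ.exists_rep
  obtain ⟨𝒜, rfl⟩ := 𝒜.exists_rep
  have hQ := clop_hyp Θ 𝒜
  have hh : Hyp Θ 𝒜 h := ⟨hΘ, h𝒜⟩
  obtain ⟨Op, hOp1, hOp2, hOp3, hOp4⟩ := exists_Op Θ 𝒜
  obtain ⟨W, l, hW0, hWm, hlm, hls, hWop, hWae, hhit, hh8, hh9⟩ := hB Op hOp1 hOp2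
  let X : BName B := BName.mk {F // F ∈ W} (fun F => nmR F.1) (fun _ => ⊤)
  have memX : ∀ F ∈ W, ∀ h : Ult B, E h (Mdl.mk h (nmR F)) (Mdl.mk h X) := fun F hF h =>
    E_of_coe (e := fun F : {F // F ∈ W} => nmR F.1) (i := ⟨F, hF⟩) h.top'
  have forX : ∀ {P : (h : Ult B) → Mdl h → Prop},
      BPred (fun h : Ult B => h) (fun h (x : BName B) => P h (Mdl.mk h x)) →
      ∀ {Q : Ult B → Prop}, Clop Q → (∀ F ∈ W, ∀ h : Ult B, Q h → P h (Mdl.mk h (nmR F))) →
        ∀ h : Ult B, Q h → ∀ z, E h z (Mdl.mk h X) → P h z := fun hP _ hQ H =>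
    forall_mem (fun F : {F // F ∈ W} => nmR F.1) (fun _ => ⊤) hP hQ
      fun h hQ F _ => H F.1 F.2 h hQ
  have hasl := has_nmR hlm
  refine ⟨Mdl.mk h X, Mdl.mk h (nmR l), ?_, ?_, isFun_nmR hlm h, ?_, ?_, ?_, ?_, ?_⟩
  · obtain ⟨F, hF⟩ := hW0
    exact ⟨_, memX F hF h⟩
  · exact forX (P := fun h x => IsFun (E h) x (wM h) (wM h)) (by (repeat' first | exact BMap.id | apply BMap.fst | apply BMap.snd | exact BTerm.const _ | apply bterm_opair | apply BTerm.of | apply BPred.mem | apply BPred.eq | apply bp_has2 | apply bp_has3 | apply bp_has4 | apply bp_isTuple3 | apply bp_eq_pr | apply bp_isPair | apply bp_isUPair | apply bp_isFun | apply bp_leN | apply bp_infZ | apply bp_infZ2 | apply bp_isSeqR | apply bp_isHit | apply bp_isOps | apply BPred.not | apply BPred.and | apply BPred.or | apply BPred.iff | apply BPred.imp | refine BPred.ex ?_ | refine BPred.all ?_ | exact BPred.const _)) clop_true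
      (fun F hF h _ => isFun_nmR (hWm F hF) h) h trivial
  · -- `l` is strictly increasing
    intro i j a b hij hj ha hb
    refine forall_om (P := fun h j => ∀ i a b, E h i j →
      Has (E h) (Mdl.mk h (nmR l)) [i, a] → Has (E h) (Mdl.mk h (nmR l)) [j, b] → E h a b)
      (by (repeat' first | exact BMap.id | apply BMap.fst | apply BMap.snd | exact BTerm.const _ | apply bterm_opair | apply BTerm.of | apply BPred.mem | apply BPred.eq | apply bp_has2 | apply bp_has3 | apply bp_has4 | apply bp_isTuple3 | apply bp_eq_pr | apply bp_isPair | apply bp_isUPair | apply bp_isFun | apply bp_leN | apply bp_infZ | apply bp_infZ2 | apply bp_isSeqR | apply bp_isHit | apply bp_isOps | apply BPred.not | apply BPred.and | apply BPred.or | apply BPred.iff | apply BPred.imp | refine BPred.ex ?_ | refine BPred.all ?_ | exact BPred.const _)) clop_true ?_ h trivial j hj i a b hij ha hb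
    intro h _ j
    refine of_gen (Q := fun _ : Ult B => True) (P := fun h => ∀ i a b, E h i (nM h j) →
      Has (E h) (Mdl.mk h (nmR l)) [i, a] → Has (E h) (Mdl.mk h (nmR l)) [nM h j, b] → E h a b)
      clop_true (BPred.clop (P := fun h (_ : PUnit.{1}) => ∀ i a b, E h i (nM h j) →
      Has (E h) (Mdl.mk h (nmR l)) [i, a] → Has (E h) (Mdl.mk h (nmR l)) [nM h j, b] → E h a b)
      (by (repeat' first | exact BMap.id | apply BMap.fst | apply BMap.snd | exact BTerm.const _ | apply bterm_opair | apply BTerm.of | apply BPred.mem | apply BPred.eq | apply bp_has2 | apply bp_has3 | apply bp_has4 | apply bp_isTuple3 | apply bp_eq_pr | apply bp_isPair | apply bp_isUPair | apply bp_isFun | apply bp_leN | apply bp_infZ | apply bp_infZ2 | apply bp_isSeqR | apply bp_isHit | apply bp_isOps | apply BPred.not | apply BPred.and | apply BPred.or | apply BPred.iff | apply BPred.imp | refine BPred.ex ?_ | refine BPred.all ?_ | exact BPred.const _)) PUnit.unit) ?_ h trivial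
    filter_upwards [hasl] with ω hl _ i a b hi ha hb
    obtain ⟨i', hi', rfl⟩ := E_nM_iff.1 hi
    rw [hl] at ha hb
    rw [ha, hb, E_vN_vN]
    exact hls ω hi'
  · -- closure under the operations
    intro i x y z hi hx hy hz
    refine forall_om (P := fun h i => ∀ x y z, E h x (Mdl.mk h X) → E h y (Mdl.mk h X) →
      Has (E h) (Mdl.mk h Θ) [i, x, y, z] → E h z (Mdl.mk h X)) (by (repeat' first | exact BMap.id | apply BMap.fst | apply BMap.snd | exact BTerm.const _ | apply bterm_opair | apply BTerm.of | apply BPred.mem | apply BPred.eq | apply bp_has2 | apply bp_has3 | apply bp_has4 | apply bp_isTuple3 | apply bp_eq_pr | apply bp_isPair | apply bp_isUPair | apply bp_isFun | apply bp_leN | apply bp_infZ | apply bp_infZ2 | apply bp_isSeqR | apply bp_isHit | apply bp_isOps | apply BPred.not | apply BPred.and | apply BPred.or | apply BPred.iff | apply BPred.imp | refine BPred.ex ?_ | refine BPred.all ?_ | exact BPred.const _)) hQ ?_ h hh i hi x y z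
      hx hy hz
    intro h hh i x y z hx hy hz
    refine forX (P := fun h x => ∀ y z, E h y (Mdl.mk h X) →
      Has (E h) (Mdl.mk h Θ) [nM h i, x, y, z] → E h z (Mdl.mk h X)) (by (repeat' first | exact BMap.id | apply BMap.fst | apply BMap.snd | exact BTerm.const _ | apply bterm_opair | apply BTerm.of | apply BPred.mem | apply BPred.eq | apply bp_has2 | apply bp_has3 | apply bp_has4 | apply bp_isTuple3 | apply bp_eq_pr | apply bp_isPair | apply bp_isUPair | apply bp_isFun | apply bp_leN | apply bp_infZ | apply bp_infZ2 | apply bp_isSeqR | apply bp_isHit | apply bp_isOps | apply BPred.not | apply BPred.and | apply BPred.or | apply BPred.iff | apply BPred.imp | refine BPred.ex ?_ | refine BPred.all ?_ | exact BPred.const _)) hQ ?_ h hh x hx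
      y z hy hz
    intro F hF h hh y z hy hz
    refine forX (P := fun h y => ∀ z,
      Has (E h) (Mdl.mk h Θ) [nM h i, Mdl.mk h (nmR F), y, z] → E h z (Mdl.mk h X)) (by (repeat' first | exact BMap.id | apply BMap.fst | apply BMap.snd | exact BTerm.const _ | apply bterm_opair | apply BTerm.of | apply BPred.mem | apply BPred.eq | apply bp_has2 | apply bp_has3 | apply bp_has4 | apply bp_isTuple3 | apply bp_eq_pr | apply bp_isPair | apply bp_isUPair | apply bp_isFun | apply bp_leN | apply bp_infZ | apply bp_infZ2 | apply bp_isSeqR | apply bp_isHit | apply bp_isOps | apply BPred.not | apply BPred.and | apply BPred.or | apply BPred.iff | apply BPred.imp | refine BPred.ex ?_ | refine BPred.all ?_ | exact BPred.const _)) hQ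
      ?_ h hh y hy z hz
    intro G hG h hh z hz
    rw [hOp3 i F G (hWm F hF) (hWm G hG) h hh z hz]
    exact memX _ (hWop (i + 1) F hF G hG) h
  · -- the members of the families
    intro x hx
    refine forX (P := fun h x => ∃ A, E h A (Mdl.mk h X) ∧ Has (E h) (Mdl.mk h 𝒜) [x, A] ∧
      ∃ m, E h m (wM h) ∧ ∀ k a, E h k (wM h) → LeN (E h) m k →
        Has (E h) (Mdl.mk h (nmR l)) [k, a] → Has (E h) A [a, oM h]) (by (repeat' first | exact BMap.id | apply BMap.fst | apply BMap.snd | exact BTerm.const _ | apply bterm_opair | apply BTerm.of | apply BPred.mem | apply BPred.eq | apply bp_has2 | apply bp_has3 | apply bp_has4 | apply bp_isTuple3 | apply bp_eq_pr | apply bp_isPair | apply bp_isUPair | apply bp_isFun | apply bp_leN | apply bp_infZ | apply bp_infZ2 | apply bp_isSeqR | apply bp_isHit | apply bp_isOps | apply BPred.not | apply BPred.and | apply BPred.or | apply BPred.iff | apply BPred.imp | refine BPred.ex ?_ | refine BPred.all ?_ | exact BPred.const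 _)) hQ ?_ h hh x hx
    intro v hv h hh
    obtain ⟨s, hs, hvs⟩ := hhit v hv
    refine of_gen (P := fun h => ∃ A, E h A (Mdl.mk h X) ∧
      Has (E h) (Mdl.mk h 𝒜) [Mdl.mk h (nmR v), A] ∧
      ∃ m, E h m (wM h) ∧ ∀ k a, E h k (wM h) → LeN (E h) m k →
        Has (E h) (Mdl.mk h (nmR l)) [k, a] → Has (E h) A [a, oM h]) hQ
      (BPred.clop (P := fun h (_ : PUnit.{1}) => ∃ A, E h A (Mdl.mk h X) ∧
      Has (E h) (Mdl.mk h 𝒜) [Mdl.mk h (nmR v), A] ∧
      ∃ m, E h m (wM h) ∧ ∀ k a, E h k (wM h) → LeN (E h) m k →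
        Has (E h) (Mdl.mk h (nmR l)) [k, a] → Has (E h) A [a, oM h]) (by (repeat' first | exact BMap.id | apply BMap.fst | apply BMap.snd | exact BTerm.const _ | apply bterm_opair | apply BTerm.of | apply BPred.mem | apply BPred.eq | apply bp_has2 | apply bp_has3 | apply bp_has4 | apply bp_isTuple3 | apply bp_eq_pr | apply bp_isPair | apply bp_isUPair | apply bp_isFun | apply bp_leN | apply bp_infZ | apply bp_infZ2 | apply bp_isSeqR | apply bp_isHit | apply bp_isOps | apply BPred.not | apply BPred.and | apply BPred.or | apply BPred.iff | apply BPred.imp | refine BPred.ex ?_ | refine BPred.all ?_ | exact BPred.const _)) PUnit.unit) ?_ h hh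
    have hOm := hOp1 0 v s (hWm v hv) (hWm s hs)
    have h4 : ∀ᶠ ω in genN B, ∀ m : ℕ, (∀ k : ℕ, ∀ a, LeN (E ω) (nM ω m) (nM ω k) →
        Has (E ω) (Mdl.mk ω (nmR l)) [nM ω k, a] →
          Has (E ω) (Mdl.mk ω (nmR (Op 0 v s))) [a, oM ω]) → ∀ k, E ω k (wM ω) → ∀ a,
        LeN (E ω) (nM ω m) k → Has (E ω) (Mdl.mk ω (nmR l)) [k, a] →
          Has (E ω) (Mdl.mk ω (nmR (Op 0 v s))) [a, oM ω] :=
      eventually_countable_forall.2 fun m => ae_forall_om (P := fun h k => ∀ a,
        LeN (E h) (nM h m) k → Has (E h) (Mdl.mk h (nmR l)) [k, a] →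
          Has (E h) (Mdl.mk h (nmR (Op 0 v s))) [a, oM h]) (by (repeat' first | exact BMap.id | apply BMap.fst | apply BMap.snd | exact BTerm.const _ | apply bterm_opair | apply BTerm.of | apply BPred.mem | apply BPred.eq | apply bp_has2 | apply bp_has3 | apply bp_has4 | apply bp_isTuple3 | apply bp_eq_pr | apply bp_isPair | apply bp_isUPair | apply bp_isFun | apply bp_leN | apply bp_infZ | apply bp_infZ2 | apply bp_isSeqR | apply bp_isHit | apply bp_isOps | apply BPred.not | apply BPred.and | apply BPred.or | apply BPred.iff | apply BPred.imp | refine BPred.ex ?_ | refine BPred.all ?_ | exact BPred.const _))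
    filter_upwards [hvs, infZ_of (hWm s hs), inf_of_infZ2 hOm (hWm s hs), h4, hasl,
      has_nmR hOm] with ω hvs h1 h2 h4 hl hO hhω
    obtain ⟨h5, h6⟩ := hOp4 v s (hWm v hv) (hWm s hs) ω hhω (h1 hvs.1)
    obtain ⟨m, hm⟩ := eventually_atTop.1 (hvs.2 (h2 h6))
    refine ⟨_, memX _ (hWop 0 v hv s hs) ω, h5, nM ω m, E_nM ω m, fun k a hk => ?_⟩
    refine h4 m (fun k a hk ha => ?_) k hk a
    rw [hl] at ha
    rw [leN_nM] at hk
    rw [ha, hO, hm k hk]
  · -- the slaloms
    intro N g hN hg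
    obtain ⟨g, rfl⟩ := g.exists_rep
    obtain ⟨G, hGm, hG⟩ := exists_scode g
    have hQg : Clop (fun h : Ult B => IsSeqR (E h) (wM h) (Mdl.mk h g)) :=
      BPred.clop (P := fun h (_ : PUnit.{1}) => IsSeqR (E h) (wM h) (Mdl.mk h g)) (by (repeat' first | exact BMap.id | apply BMap.fst | apply BMap.snd | exact BTerm.const _ | apply bterm_opair | apply BTerm.of | apply BPred.mem | apply BPred.eq | apply bp_has2 | apply bp_has3 | apply bp_has4 | apply bp_isTuple3 | apply bp_eq_pr | apply bp_isPair | apply bp_isUPair | apply bp_isFun | apply bp_leN | apply bp_infZ | apply bp_infZ2 | apply bp_isSeqR | apply bp_isHit | apply bp_isOps | apply BPred.not | apply BPred.and | apply BPred.or | apply BPred.iff | apply BPred.imp | refine BPred.ex ?_ | refine BPred.all ?_ | exact BPred.const _))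
        PUnit.unit
    refine forX (P := fun h N => ∃ x, E h x (Mdl.mk h X) ∧ ∃ m, E h m (wM h) ∧
      ∀ n b y j c, E h n (wM h) → LeN (E h) m n → Has (E h) N [n, b] →
        Has (E h) (Mdl.mk h g) [n, y] → E h j b → Has (E h) y [j, c] → ¬ Has (E h) x [n, c])
      (by (repeat' first | exact BMap.id | apply BMap.fst | apply BMap.snd | exact BTerm.const _ | apply bterm_opair | apply BTerm.of | apply BPred.mem | apply BPred.eq | apply bp_has2 | apply bp_has3 | apply bp_has4 | apply bp_isTuple3 | apply bp_eq_pr | apply bp_isPair | apply bp_isUPair | apply bp_isFun | apply bp_leN | apply bp_infZ | apply bp_infZ2 | apply bp_isSeqR | apply bp_isHit | apply bp_isOps | apply BPred.not | apply BPred.and | apply BPred.or | apply BPred.iff | apply BPred.imp | refine BPred.ex ?_ | refine BPred.all ?_ | exact BPred.const _)) hQg ?_ h hg N hN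
    intro N hN h hg
    obtain ⟨v, hv, hNv⟩ := hh8 N hN G hGm
    refine of_gen (P := fun h => ∃ x, E h x (Mdl.mk h X) ∧ ∃ m, E h m (wM h) ∧
      ∀ n b y j c, E h n (wM h) → LeN (E h) m n → Has (E h) (Mdl.mk h (nmR N)) [n, b] →
        Has (E h) (Mdl.mk h g) [n, y] → E h j b → Has (E h) y [j, c] → ¬ Has (E h) x [n, c])
      hQg (BPred.clop (P := fun h (_ : PUnit.{1}) => ∃ x, E h x (Mdl.mk h X) ∧
        ∃ m, E h m (wM h) ∧
      ∀ n b y j c, E h n (wM h) → LeN (E h) m n → Has (E h) (Mdl.mk h (nmR N)) [n, b] →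
        Has (E h) (Mdl.mk h g) [n, y] → E h j b → Has (E h) y [j, c] → ¬ Has (E h) x [n, c])
      (by (repeat' first | exact BMap.id | apply BMap.fst | apply BMap.snd | exact BTerm.const _ | apply bterm_opair | apply BTerm.of | apply BPred.mem | apply BPred.eq | apply bp_has2 | apply bp_has3 | apply bp_has4 | apply bp_isTuple3 | apply bp_eq_pr | apply bp_isPair | apply bp_isUPair | apply bp_isFun | apply bp_leN | apply bp_infZ | apply bp_infZ2 | apply bp_isSeqR | apply bp_isHit | apply bp_isOps | apply BPred.not | apply BPred.and | apply BPred.or | apply BPred.iff | apply BPred.imp | refine BPred.ex ?_ | refine BPred.all ?_ | exact BPred.const _)) PUnit.unit) ?_ h hg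
    have h4 : ∀ᶠ ω in genN B, ∀ m : ℕ, (∀ n : ℕ, ∀ b y j c, LeN (E ω) (nM ω m) (nM ω n) →
        Has (E ω) (Mdl.mk ω (nmR N)) [nM ω n, b] →
        Has (E ω) (Mdl.mk ω g) [nM ω n, y] → E ω j b → Has (E ω) y [j, c] →
        ¬ Has (E ω) (Mdl.mk ω (nmR v)) [nM ω n, c]) → ∀ n, E ω n (wM ω) → ∀ b y j c,
        LeN (E ω) (nM ω m) n → Has (E ω) (Mdl.mk ω (nmR N)) [n, b] →
        Has (E ω) (Mdl.mk ω g) [n, y] → E ω j b → Has (E ω) y [j, c] →
        ¬ Has (E ω) (Mdl.mk ω (nmR v)) [n, c] :=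
      eventually_countable_forall.2 fun m => ae_forall_om (P := fun h n => ∀ b y j c,
        LeN (E h) (nM h m) n → Has (E h) (Mdl.mk h (nmR N)) [n, b] →
        Has (E h) (Mdl.mk h g) [n, y] → E h j b → Has (E h) y [j, c] →
        ¬ Has (E h) (Mdl.mk h (nmR v)) [n, c]) (by (repeat' first | exact BMap.id | apply BMap.fst | apply BMap.snd | exact BTerm.const _ | apply bterm_opair | apply BTerm.of | apply BPred.mem | apply BPred.eq | apply bp_has2 | apply bp_has3 | apply bp_has4 | apply bp_isTuple3 | apply bp_eq_pr | apply bp_isPair | apply bp_isUPair | apply bp_isFun | apply bp_leN | apply bp_infZ | apply bp_infZ2 | apply bp_isSeqR | apply bp_isHit | apply bp_isOps | apply BPred.not | apply BPred.and | apply BPred.or | apply BPred.iff | apply BPred.imp | refine BPred.ex ?_ | refine BPred.all ?_ | exact BPred.const _))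
    have h5 : ∀ᶠ ω in genN B, ∀ i : ℕ, ∀ n (b : Mdl ω),
      (Has (E ω) (Mdl.mk ω (nmR (row G i))) [nM ω n, b] ↔ b = nM ω (row G i ω n)) :=
      eventually_countable_forall.2 fun i => has_nmR (meas_row hGm i)
    filter_upwards [hNv, h4, h5, has_nmR (hWm N hN), has_nmR (hWm v hv)] with ω hNv h4 h5 h6 h7
      hgω
    obtain ⟨m, hm⟩ := eventually_atTop.1 hNv
    refine ⟨_, memX v hv ω, nM ω m, E_nM ω m, fun n b y j c hn => ?_⟩
    refine h4 m (fun n b y j c hmn hb hy hj hc hx => ?_) n hn b y j c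
    rw [leN_nM] at hmn
    rw [h6] at hb
    rw [hb] at hj
    obtain ⟨j', hj', rfl⟩ := E_nM_iff.1 hj
    rw [hG ω hgω n y hy, h5] at hc
    rw [hc, h7, vN_inj] at hx
    exact hm n hmn j' hj' hx
  · -- the prediction
    intro t ht
    obtain ⟨t, rfl⟩ := t.exists_rep
    have hQt : Clop (fun h : Ult B => IsFun (E h) (Mdl.mk h t) (wM h) (wM h)) :=
      BPred.clop (P := fun h (_ : PUnit.{1}) => IsFun (E h) (Mdl.mk h t) (wM h) (wM h)) (by (repeat' first | exact BMap.id | apply BMap.fst | apply BMap.snd | exact BTerm.const _ | apply bterm_opair | apply BTerm.of | apply BPred.mem | apply BPred.eq | apply bp_has2 | apply bp_has3 | apply bp_has4 | apply bp_isTuple3 | apply bp_eq_pr | apply bp_isPair | apply bp_isUPair | apply bp_isFun | apply bp_leN | apply bp_infZ | apply bp_infZ2 | apply bp_isSeqR | apply bp_isHit | apply bp_isOps | apply BPred.not | apply BPred.and | apply BPred.or | apply BPred.iff | apply BPred.imp | refine BPred.ex ?_ | refine BPred.all ?_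 | exact BPred.const _))
        PUnit.unit
    obtain ⟨g, hg, hgf⟩ := hh9 (rcode t) (meas_rcode t)
    refine ⟨Mdl.mk h (nmR g), memX g hg h, ?_⟩
    refine forX (P := fun h f => ∃ m, E h m (wM h) ∧ ∀ k a b n c d, E h k (wM h) →
        LeN (E h) m k → Has (E h) (Mdl.mk h (nmR l)) [k, a] → Has (E h) f [a, b] →
        E h n (wM h) → LeN (E h) a n → LeN (E h) n b → Has (E h) (Mdl.mk h t) [n, c] →
        LeN (E h) c b → Has (E h) (Mdl.mk h (nmR g)) [n, d] → LeN (E h) c d)
      (by (repeat' first | exact BMap.id | apply BMap.fst | apply BMap.snd | exact BTerm.const _ | apply bterm_opair | apply BTerm.of | apply BPred.mem | apply BPred.eq | apply bp_has2 | apply bp_has3 | apply bp_has4 | apply bp_isTuple3 | apply bp_eq_pr | apply bp_isPair | apply bp_isUPair | apply bp_isFun | apply bp_leN | apply bp_infZ | apply bp_infZ2 | apply bp_isSeqR | apply bp_isHit | apply bp_isOps | apply BPred.not | apply BPred.and | apply BPred.or | apply BPred.iff | apply BPred.imp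 | refine BPred.ex ?_ | refine BPred.all ?_ | exact BPred.const _)) hQt ?_ h ht
    intro f hf h ht
    refine of_gen (P := fun h => ∃ m, E h m (wM h) ∧ ∀ k a b n c d, E h k (wM h) →
        LeN (E h) m k → Has (E h) (Mdl.mk h (nmR l)) [k, a] →
        Has (E h) (Mdl.mk h (nmR f)) [a, b] →
        E h n (wM h) → LeN (E h) a n → LeN (E h) n b → Has (E h) (Mdl.mk h t) [n, c] →
        LeN (E h) c b → Has (E h) (Mdl.mk h (nmR g)) [n, d] → LeN (E h) c d)
      hQt (BPred.clop (P := fun h (_ : PUnit.{1}) => ∃ m, E h m (wM h) ∧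
        ∀ k a b n c d, E h k (wM h) →
        LeN (E h) m k → Has (E h) (Mdl.mk h (nmR l)) [k, a] →
        Has (E h) (Mdl.mk h (nmR f)) [a, b] →
        E h n (wM h) → LeN (E h) a n → LeN (E h) n b → Has (E h) (Mdl.mk h t) [n, c] →
        LeN (E h) c b → Has (E h) (Mdl.mk h (nmR g)) [n, d] → LeN (E h) c d)
      (by (repeat' first | exact BMap.id | apply BMap.fst | apply BMap.snd | exact BTerm.const _ | apply bterm_opair | apply BTerm.of | apply BPred.mem | apply BPred.eq | apply bp_has2 | apply bp_has3 | apply bp_has4 | apply bp_isTuple3 | apply bp_eq_pr | apply bp_isPair | apply bp_isUPair | apply bp_isFun | apply bp_leN | apply bp_infZ | apply bp_infZ2 | apply bp_isSeqR | apply bp_isHit | apply bp_isOps | apply BPred.not | apply BPred.and | apply BPred.or | apply BPred.iff | apply BPred.imp | refine BPred.ex ?_ | refine BPred.all ?_ | exact BPred.const _)) PUnit.unit) ?_ h ht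
    have h4 : ∀ᶠ ω in genN B, ∀ m : ℕ, (∀ k : ℕ, ∀ a b n c d,
        LeN (E ω) (nM ω m) (nM ω k) → Has (E ω) (Mdl.mk ω (nmR l)) [nM ω k, a] →
        Has (E ω) (Mdl.mk ω (nmR f)) [a, b] →
        E ω n (wM ω) → LeN (E ω) a n → LeN (E ω) n b →
        Has (E ω) (Mdl.mk ω (nmR (rcode t))) [n, c] →
        LeN (E ω) c b → Has (E ω) (Mdl.mk ω (nmR g)) [n, d] → LeN (E ω) c d) →
        ∀ k, E ω k (wM ω) → ∀ a b n c d,
        LeN (E ω) (nM ω m) k → Has (E ω) (Mdl.mk ω (nmR l)) [k, a] →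
        Has (E ω) (Mdl.mk ω (nmR f)) [a, b] →
        E ω n (wM ω) → LeN (E ω) a n → LeN (E ω) n b →
        Has (E ω) (Mdl.mk ω (nmR (rcode t))) [n, c] →
        LeN (E ω) c b → Has (E ω) (Mdl.mk ω (nmR g)) [n, d] → LeN (E ω) c d :=
      eventually_countable_forall.2 fun m => ae_forall_om (P := fun h k => ∀ a b n c d,
        LeN (E h) (nM h m) k → Has (E h) (Mdl.mk h (nmR l)) [k, a] →
        Has (E h) (Mdl.mk h (nmR f)) [a, b] →
        E h n (wM h) → LeN (E h) a n → LeN (E h) n b →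
        Has (E h) (Mdl.mk h (nmR (rcode t))) [n, c] →
        LeN (E h) c b → Has (E h) (Mdl.mk h (nmR g)) [n, d] → LeN (E h) c d) (by (repeat' first | exact BMap.id | apply BMap.fst | apply BMap.snd | exact BTerm.const _ | apply bterm_opair | apply BTerm.of | apply BPred.mem | apply BPred.eq | apply bp_has2 | apply bp_has3 | apply bp_has4 | apply bp_isTuple3 | apply bp_eq_pr | apply bp_isPair | apply bp_isUPair | apply bp_isFun | apply bp_leN | apply bp_infZ | apply bp_infZ2 | apply bp_isSeqR | apply bp_isHit | apply bp_isOps | apply BPred.not | apply BPred.and | apply BPred.or | apply BPred.iff | apply BPred.imp | refine BPred.ex ?_ | refine BPred.all ?_ | exact BPred.const _))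
    have h5 : ∀ᶠ ω in genN B, ∀ a b : ℕ, (∀ n : ℕ, ∀ c d, LeN (E ω) (nM ω a) (nM ω n) →
        LeN (E ω) (nM ω n) (nM ω b) → Has (E ω) (Mdl.mk ω (nmR (rcode t))) [nM ω n, c] →
        LeN (E ω) c (nM ω b) → Has (E ω) (Mdl.mk ω (nmR g)) [nM ω n, d] → LeN (E ω) c d) →
        ∀ n, E ω n (wM ω) → ∀ c d, LeN (E ω) (nM ω a) n →
        LeN (E ω) n (nM ω b) → Has (E ω) (Mdl.mk ω (nmR (rcode t))) [n, c] →
        LeN (E ω) c (nM ω b) → Has (E ω) (Mdl.mk ω (nmR g)) [n, d] → LeN (E ω) c d :=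
      eventually_countable_forall.2 fun a => eventually_countable_forall.2 fun b =>
        ae_forall_om (P := fun h n => ∀ c d, LeN (E h) (nM h a) n →
        LeN (E h) n (nM h b) → Has (E h) (Mdl.mk h (nmR (rcode t))) [n, c] →
        LeN (E h) c (nM h b) → Has (E h) (Mdl.mk h (nmR g)) [n, d] → LeN (E h) c d) (by (repeat' first | exact BMap.id | apply BMap.fst | apply BMap.snd | exact BTerm.const _ | apply bterm_opair | apply BTerm.of | apply BPred.mem | apply BPred.eq | apply bp_has2 | apply bp_has3 | apply bp_has4 | apply bp_isTuple3 | apply bp_eq_pr | apply bp_isPair | apply bp_isUPair | apply bp_isFun | apply bp_leN | apply bp_infZ | apply bp_infZ2 | apply bp_isSeqR | apply bp_isHit | apply bp_isOps | apply BPred.not | apply BPred.and | apply BPred.or | apply BPred.iff | apply BPred.imp | refine BPred.ex ?_ | refine BPred.all ?_ | exact BPred.const _))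
    filter_upwards [hgf f hf, h4, h5, hasl, has_nmR (hWm f hf), has_nmR (hWm g hg),
      has_nmR (meas_rcode t)] with ω hgf h4 h5 hl hf' hg' ht' htω
    obtain ⟨m, hm⟩ := eventually_atTop.1 hgf
    refine ⟨nM ω m, E_nM ω m, ?_⟩
    rw [mk_rcode t ω htω]
    intro k a b n c d hk
    refine h4 m (fun k a b n c d hmk ha hb hn => ?_) k hk a b n c d
    rw [leN_nM] at hmk
    rw [hl] at ha
    rw [ha, hf'] at hb
    rw [ha, hb]
    refine h5 _ _ (fun n c d h1 h2 h3 h4 h5 => ?_) n hn c d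
    rw [leN_nM] at h1 h2
    rw [ht'] at h3
    rw [hg'] at h5
    rw [h3, leN_nM] at h4
    rw [h3, h5, leN_nM]
    exact hm k hmk n h1 h2 h4

end Pool.Agent.MP_b00c97_gt.Mod
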